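import Pool.Agent.Q10.MZ.Base

/-!
# Continuous algebraic functions with algebraic values at rational points
-/

set_option autoImplicit false

namespace Pool.Agent.Q10.MZ

open Set Filter Topology Pool.Agent.H581R2 Pool.Agent.TH729.SQ

/-- real algebraic numbers -/
noncomputable abbrev AA : IntermediateField ℚ ℝ := algebraicClosure ℚ ℝ

variable {α : Type}

/-- the polynomial in the last variable -/
noncomputable def lu (x : α → ℝ) : MvPolynomial (Option α) AA →ₐ[AA] Polynomial ℝ :=
  MvPolynomial.aeval (fun o : Option α => o.elim Polynomial.X (fun i => Polynomial.C (x i)))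

lemma lu_C (x : α → ℝ) (a : AA) : lu x (MvPolynomial.C a) = Polynomial.C (a : ℝ) := by
  rw [lu, MvPolynomial.aeval_C]
  rfl

lemma lu_eval (x : α → ℝ) (Q : MvPolynomial (Option α) AA) (s : ℝ) :
    (lu x Q).eval s = MvPolynomial.aeval (ext s x) Q := by
  induction Q using MvPolynomial.induction_on with
  | C a =>
    rw [lu_C, Polynomial.eval_C, MvPolynomial.aeval_C]
    rfl
  | add p q hp hq => rw [map_add, map_add, Polynomial.eval_add, hp, hq]
  | mul_X p i hp =>
    rw [map_mul, map_mul, Polynomial.eval_mul, hp, MvPolynomial.aeval_X]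
    congr 1
    rw [lu, MvPolynomial.aeval_X]
    cases i with
    | none => simp
    | some i => simp

lemma lu_deriv (x : α → ℝ) (Q : MvPolynomial (Option α) AA) :
    Polynomial.derivative (lu x Q) = lu x (MvPolynomial.pderiv none Q) := by
  classical
  induction Q using MvPolynomial.induction_on with
  | C a =>
    rw [lu_C, Polynomial.derivative_C, MvPolynomial.pderiv_C, map_zero]
  | add p q hp hq => rw [map_add, Polynomial.derivative_add, hp, hq, map_add, map_add]
  | mul_X p i hp =>
    rw [map_mul, Polynomial.derivative_mul, hp, Derivation.leibniz, map_add, smul_eq_mul,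
      smul_eq_mul, map_mul, map_mul, MvPolynomial.pderiv_X]
    have h1 : lu x (MvPolynomial.X i) = i.elim Polynomial.X (fun i => Polynomial.C (x i)) := by
      rw [lu, MvPolynomial.aeval_X]
    rw [h1]
    cases i with
    | none => simp; ring
    | some i => simp; ring

lemma lu_deriv_iter (x : α → ℝ) (j : ℕ) : ∀ Q : MvPolynomial (Option α) AA,
    Polynomial.derivative^[j] (lu x Q) = lu x ((MvPolynomial.pderiv none)^[j] Q) := by
  induction j with
  | zero => exact fun Q => rfl
  | succ j ih =>
    intro Q
    rw [Function.iterate_succ_apply, lu_deriv, ih, Function.iterate_succ_apply]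

lemma lu_deg (Q : MvPolynomial (Option α) AA) : ∃ N, ∀ x : α → ℝ, (lu x Q).natDegree ≤ N := by
  induction Q using MvPolynomial.induction_on with
  | C a => exact ⟨0, fun x => by rw [lu_C, Polynomial.natDegree_C]⟩
  | add p q hp hq =>
    obtain ⟨N, hN⟩ := hp
    obtain ⟨M, hM⟩ := hq
    refine ⟨max N M, fun x => ?_⟩
    rw [map_add]
    exact (Polynomial.natDegree_add_le _ _).trans (max_le_max (hN x) (hM x))
  | mul_X p i hp =>
    obtain ⟨N, hN⟩ := hp
    refine ⟨N + 1, fun x => ?_⟩
    rw [map_mul]
    refine Polynomial.natDegree_mul_le.trans (add_le_add (hN x) ?_)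
    rw [lu, MvPolynomial.aeval_X]
    cases i with
    | none => simp
    | some i => simp

/-- zero sets of polynomials with algebraic coefficients -/
lemma SAP_aeval_zero {ι : Type} (Q : MvPolynomial ι AA) :
    SAP (fun w : ι → ℝ => (MvPolynomial.aeval w Q : ℝ) = 0) := by
  classical
  have h1 : SA {v : {m // m ∈ Q.support} ⊕ ι → ℝ |
      ∑ m : {m // m ∈ Q.support}, v (Sum.inl m) * ∏ i ∈ m.1.support, v (Sum.inr i) ^ m.1 i = 0} := by
    refine SAP.eq_zero ⟨∑ m : {m // m ∈ Q.support}, MvPolynomial.X (Sum.inl m) *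
      ∏ i ∈ m.1.support, MvPolynomial.X (Sum.inr i) ^ m.1 i, fun v => ?_⟩
    simp only [map_sum, map_mul, map_prod, map_pow, MvPolynomial.aeval_X]
  have h2 := SA_of_param h1 (a := fun m => ((Q.coeff m.1 : AA) : ℝ)) fun m =>
    mem_algebraicClosure_iff.1 (Q.coeff m.1).2
  refine SAP.congr h2 fun w => ?_
  change (MvPolynomial.aeval w Q : ℝ) = 0 ↔ ∑ m : {m // m ∈ Q.support},
    ((Q.coeff m.1 : AA) : ℝ) * ∏ i ∈ m.1.support, w i ^ m.1 i = 0
  rw [MvPolynomial.aeval_def, MvPolynomial.eval₂_eq, ← Finset.sum_coe_sort Q.support]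
  rfl

/-- Rolle -/
lemma rolle (μ : ℕ) : ∀ (p : Polynomial ℝ) (a b : ℝ),
    (∀ j < μ, (Polynomial.derivative^[j] p).eval a = 0) → p.eval b = 0 → a ≠ b →
    ∃ ξ ∈ uIcc a b, (Polynomial.derivative^[μ] p).eval ξ = 0 := by
  induction μ with
  | zero => exact fun p a b _ hb _ => ⟨b, right_mem_uIcc, hb⟩
  | succ μ ih =>
    intro p a b ha hb hab
    have ha0 : p.eval a = 0 := ha 0 (by omega)
    have key : ∃ c ∈ uIcc a b, c ≠ a ∧ (Polynomial.derivative p).eval c = 0 := by
      rcases lt_or_gt_of_ne hab with h | h
      · obtain ⟨c, hc, hc2⟩ := exists_hasDerivAt_eq_zero (f := fun s => p.eval s)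
          (f' := fun s => (Polynomial.derivative p).eval s) h p.continuous.continuousOn
          (by rw [ha0, hb]) fun s _ => p.hasDerivAt s
        exact ⟨c, by rw [uIcc_of_le h.le]; exact Ioo_subset_Icc_self hc, ne_of_gt hc.1, hc2⟩
      · obtain ⟨c, hc, hc2⟩ := exists_hasDerivAt_eq_zero (f := fun s => p.eval s)
          (f' := fun s => (Polynomial.derivative p).eval s) h p.continuous.continuousOn
          (by rw [ha0, hb]) fun s _ => p.hasDerivAt s
        exact ⟨c, by rw [uIcc_of_ge h.le]; exact Ioo_subset_Icc_self hc, ne_of_lt hc.2, hc2⟩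
    obtain ⟨c, hc, hca, hc0⟩ := key
    obtain ⟨ξ, hξ, hξ0⟩ := ih (Polynomial.derivative p) a c (fun j hj => by
      have := ha (j + 1) (by omega)
      rwa [Function.iterate_succ_apply] at this) hc0 hca.symm
    exact ⟨ξ, uIcc_subset_uIcc left_mem_uIcc hc hξ, by rwa [Function.iterate_succ_apply]⟩

/-- descent of the coefficients to algebraic numbers -/
theorem descent {f : (α → ℝ) → ℝ} {P : MvPolynomial (Option α) ℝ} (hP : P ≠ 0)
    (hPf : ∀ x, MvPolynomial.eval (ext (f x) x) P = 0)
    (halg : ∀ r : α → ℚ, IsAlgebraic ℚ (f (fun i => (r i : ℝ)))) :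
    ∃ Q : MvPolynomial (Option α) AA, Q ≠ 0 ∧ ∀ r : α → ℚ,
      (MvPolynomial.aeval (ext (f (fun i => (r i : ℝ))) (fun i => (r i : ℝ))) Q : ℝ) = 0 := by
  classical
  obtain ⟨m₀, hm₀⟩ := MvPolynomial.ne_zero_iff.1 hP
  obtain ⟨φ, hφ⟩ := Module.Projective.exists_dual_ne_zero AA hm₀
  refine ⟨∑ m ∈ P.support, MvPolynomial.monomial m (φ (P.coeff m)), ?_, fun r => ?_⟩
  · intro h0
    apply hφ
    have h1 := congrArg (MvPolynomial.coeff m₀) h0
    rw [MvPolynomial.coeff_sum, MvPolynomial.coeff_zero] at h1
    simp only [MvPolynomial.coeff_monomial] at h1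
    rw [Finset.sum_ite_eq' P.support m₀] at h1
    rwa [if_pos (MvPolynomial.mem_support_iff.2 hm₀)] at h1
  · set w : Option α → ℝ := ext (f (fun i => (r i : ℝ))) (fun i => (r i : ℝ)) with hw
    have hwA : ∀ o, w o ∈ AA := by
      intro o
      cases o with
      | none => exact mem_algebraicClosure_iff.2 (halg r)
      | some i =>
        change ((r i : ℚ) : ℝ) ∈ AA
        exact AA.algebraMap_mem (r i)
    have hprod : ∀ m : Option α →₀ ℕ, ∏ i ∈ m.support, w i ^ m i ∈ AA := fun m =>
      prod_mem fun i _ => pow_mem (hwA i) _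
    have h1 : ((φ (MvPolynomial.eval w P) : AA) : ℝ) =
        ∑ m ∈ P.support, ((φ (P.coeff m) : AA) : ℝ) * ∏ i ∈ m.support, w i ^ m i := by
      rw [MvPolynomial.eval_eq, map_sum]
      push_cast
      refine Finset.sum_congr rfl fun m _ => ?_
      have h2 : P.coeff m * ∏ i ∈ m.support, w i ^ m i =
          (⟨∏ i ∈ m.support, w i ^ m i, hprod m⟩ : AA) • P.coeff m := by
        rw [mul_comm]
        rfl
      rw [h2, map_smul, smul_eq_mul]
      push_cast
      rw [mul_comm]
    rw [map_sum]
    have h3 : ∀ m, (MvPolynomial.aeval w (MvPolynomial.monomial m (φ (P.coeff m))) : ℝ) =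
        ((φ (P.coeff m) : AA) : ℝ) * ∏ i ∈ m.support, w i ^ m i := by
      intro m
      rw [MvPolynomial.aeval_monomial]
      rfl
    simp only [h3]
    rw [← h1, hPf, map_zero]
    rfl

lemma cont_ext : Continuous (fun p : ℝ × (α → ℝ) => ext p.1 p.2) := by
  refine continuous_pi fun o => ?_
  cases o with
  | none => exact continuous_fst
  | some i => exact (continuous_apply i).comp continuous_snd

lemma ext_self' (w : Option α → ℝ) : ext (w none) (fun i => w (some i)) = w := by
  funext o
  cases o <;> rfl

lemma cont_aeval (Q : MvPolynomial (Option α) AA) :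
    Continuous fun w : Option α → ℝ => (MvPolynomial.aeval w Q : ℝ) := by
  induction Q using MvPolynomial.induction_on with
  | C a => simpa using continuous_const
  | add p q hp hq =>
    simp only [map_add]
    exact Continuous.add hp hq
  | mul_X p i hp =>
    simp only [map_mul, MvPolynomial.aeval_X]
    exact Continuous.mul hp (continuous_apply i)

variable [Finite α]

lemma dense_ne {Q : MvPolynomial (Option α) AA} (hQ : Q ≠ 0) : Dense {x : α → ℝ | lu x Q ≠ 0} := by
  classical
  have := Fintype.ofFinite α
  intro x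
  rw [Metric.mem_closure_iff]
  intro ε hε
  by_contra hno
  push Not at hno
  have hz : ∀ y : α → ℝ, dist x y < ε → lu y Q = 0 := by
    intro y hy
    by_contra h
    exact absurd hy (not_lt.2 (hno y h))
  apply hQ
  have h1 : MvPolynomial.map (algebraMap AA ℝ) Q = 0 := by
    refine MvPolynomial.funext_set
      (fun o : Option α => o.elim Set.univ fun i => Ioo (x i - ε) (x i + ε)) ?_ ?_
    · intro o
      cases o with
      | none => exact Set.infinite_univ
      | some i => exact Ioo_infinite (by linarith)
    · intro w hw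
      rw [map_zero, MvPolynomial.eval_map]
      have h2 := hz (fun i => w (some i)) (by
        rw [dist_pi_lt_iff hε]
        intro i
        have h3 := hw (some i) trivial
        have h4 : w (some i) ∈ Ioo (x i - ε) (x i + ε) := h3
        rw [Real.dist_eq, abs_lt]
        constructor <;> linarith [h4.1, h4.2])
      have h5 := lu_eval (fun i => w (some i)) Q (w none)
      rw [h2, Polynomial.eval_zero, ext_self'] at h5
      exact h5.symm
  have hinj := MvPolynomial.map_injective (σ := Option α) (algebraMap AA ℝ)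
    (algebraMap AA ℝ).injective
  exact hinj (by rw [h1, map_zero])

/-- **continuous algebraic functions with algebraic values at the rational points** -/
theorem graph_SA {f : (α → ℝ) → ℝ} (hf : Continuous f) {P : MvPolynomial (Option α) ℝ}
    (hP : P ≠ 0) (hPf : ∀ x, MvPolynomial.eval (ext (f x) x) P = 0)
    (halg : ∀ r : α → ℚ, IsAlgebraic ℚ (f (fun i => (r i : ℝ)))) :
    SA {w : Option α → ℝ | w none = f (fun i => w (some i))} := by
  classical
  have := Fintype.ofFinite α
  obtain ⟨Q, hQ, hQr⟩ := descent hP hPf halg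
  have hQf : ∀ x, (MvPolynomial.aeval (ext (f x) x) Q : ℝ) = 0 := by
    have hcl : IsClosed {x : α → ℝ | (MvPolynomial.aeval (ext (f x) x) Q : ℝ) = 0} :=
      isClosed_eq ((cont_aeval Q).comp (cont_ext.comp (hf.prodMk continuous_id)))
        continuous_const
    have hd : DenseRange (Pi.map fun _ : α => ((↑) : ℚ → ℝ)) :=
      DenseRange.piMap fun _ => Rat.denseRange_cast
    intro x
    have h1 : closure (range (Pi.map fun _ : α => ((↑) : ℚ → ℝ))) ⊆
        {x : α → ℝ | (MvPolynomial.aeval (ext (f x) x) Q : ℝ) = 0} := by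
      refine closure_minimal ?_ hcl
      rintro _ ⟨r, rfl⟩
      exact hQr r
    exact h1 (hd x)
  obtain ⟨N, hN⟩ := lu_deg Q
  set D : ℕ → MvPolynomial (Option α) AA := fun j => (MvPolynomial.pderiv none)^[j] Q with hD
  set Gr : Set (Option α → ℝ) := {w | w none = f (fun i => w (some i))} with hGr
  have hres : Continuous fun w : Option α → ℝ => fun i => w (some i) :=
    continuous_pi fun i => continuous_apply _
  have hGrcl : IsClosed Gr := isClosed_eq (continuous_apply _) (hf.comp hres)
  let V : ℕ → Set (Option α → ℝ) := fun μ => {w | (∀ j ∈ Finset.range μ,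
    (MvPolynomial.aeval w (D j) : ℝ) = 0) ∧ ¬ (MvPolynomial.aeval w (D μ) : ℝ) = 0}
  have hV : ∀ μ, SA (V μ) := fun μ =>
    SAP.and (SAP.forall_mem _ fun j _ => SAP_aeval_zero (D j)) (SAP_aeval_zero (D μ)).not
  have hW : ∀ μ, SA (Gr ∩ V μ) := by
    intro μ
    refine sa_of_lc (Option α) (V μ) _ (hV μ) inter_subset_right ?_
    intro w hw
    by_cases hwG : w ∈ Gr
    · -- a neighbourhood on which `D μ` does not vanish
      have h1 : ∀ᶠ z in 𝓝 w, (MvPolynomial.aeval z (D μ) : ℝ) ≠ 0 :=
        (cont_aeval (D μ)).continuousAt.eventually_ne hw.2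
      obtain ⟨ε, hε, hball⟩ := Metric.eventually_nhds_iff.1 h1
      have h2 : ∀ᶠ y in 𝓝 w, dist y w < ε := Metric.ball_mem_nhds w hε
      have h3 : ∀ᶠ y in 𝓝 w, dist (f (fun i => y (some i))) (w none) < ε := by
        have h4 : Tendsto (fun y : Option α → ℝ => f (fun i => y (some i))) (𝓝 w)
            (𝓝 (w none)) := by
          have h5 := (hf.comp hres).tendsto w
          have h6 : w none = f (fun i => w (some i)) := hwG
          rw [h6]
          exact h5
        exact h4.eventually (Metric.ball_mem_nhds _ hε)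
      filter_upwards [nhdsWithin_le_nhds h2, nhdsWithin_le_nhds h3, self_mem_nhdsWithin] with y
        hy1 hy2 hyV
      refine ⟨fun _ => ⟨hwG, hw⟩, fun _ => ⟨?_, hyV⟩⟩
      change y none = f (fun i => y (some i))
      by_contra hne
      obtain ⟨ξ, hξ, hξ0⟩ := rolle μ (lu (fun i => y (some i)) Q) (y none)
        (f (fun i => y (some i))) (fun j hj => by
          rw [lu_deriv_iter, lu_eval, ext_self']
          exact hyV.1 j (Finset.mem_range.2 hj)) (by
          rw [lu_eval]
          exact hQf _) hne
      rw [lu_deriv_iter, lu_eval] at hξ0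
      refine hball ?_ hξ0
      rw [dist_pi_lt_iff hε]
      intro o
      cases o with
      | none =>
        rw [ext_none]
        have h5 : dist (y none) (w none) < ε := (dist_le_pi_dist y w none).trans_lt hy1
        have h6 : uIcc (y none) (f (fun i => y (some i))) ⊆ Metric.ball (w none) ε := by
          rw [Real.ball_eq_Ioo]
          rw [Real.dist_eq, abs_lt] at h5 hy2
          intro t ht
          rw [mem_uIcc] at ht
          constructor
          · rcases ht with ht | ht <;> linarith [ht.1, ht.2]
          · rcases ht with ht | ht <;> linarith [ht.1, ht.2]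
        exact h6 hξ
      | some i =>
        rw [ext_some]
        exact (dist_le_pi_dist y w (some i)).trans_lt hy1
    · have h1 : ∀ᶠ y in 𝓝 w, y ∉ Gr := hGrcl.isOpen_compl.mem_nhds hwG
      filter_upwards [nhdsWithin_le_nhds h1] with y hy
      exact ⟨fun h => absurd h.1 hy, fun h => absurd h.1 hwG⟩
  have hcl : Gr = closure (⋃ μ : Fin (N + 1), (Gr ∩ V μ)) := by
    apply Subset.antisymm
    · intro w hw
      set x : α → ℝ := fun i => w (some i) with hx
      have hw' : w = ext (f x) x := by
        rw [← ext_self' w]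
        congr 1
      have hcf : Continuous fun x : α → ℝ => ext (f x) x :=
        cont_ext.comp (hf.prodMk continuous_id)
      have hxd : x ∈ closure {x : α → ℝ | lu x Q ≠ 0} := dense_ne hQ x
      rw [hw']
      refine closure_mono ?_ (image_closure_subset_closure_image hcf ⟨x, hxd, rfl⟩)
      rintro _ ⟨y, hy, rfl⟩
      rw [mem_iUnion]
      have hμ : (lu y Q).rootMultiplicity (f y) ≤ N := by
        refine le_trans ?_ (hN y)
        rw [← Polynomial.count_roots]
        exact (Multiset.count_le_card _ _).trans (Polynomial.card_roots' _)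
      refine ⟨⟨(lu y Q).rootMultiplicity (f y), by omega⟩, ?_, fun j hj => ?_, ?_⟩
      · change f y = f (fun i => y i)
        rfl
      · have h1 := Polynomial.isRoot_iterate_derivative_of_lt_rootMultiplicity
          (Finset.mem_range.1 hj)
        rw [Polynomial.IsRoot, lu_deriv_iter, lu_eval] at h1
        exact h1
      · intro h0
        have h1 : (lu y Q).rootMultiplicity (f y) < (lu y Q).rootMultiplicity (f y) := by
          rw [Polynomial.lt_rootMultiplicity_iff_isRoot_iterate_derivative hy]
          intro m hm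
          rcases Nat.lt_or_eq_of_le hm with hm | rfl
          · exact Polynomial.isRoot_iterate_derivative_of_lt_rootMultiplicity hm
          · rw [Polynomial.IsRoot, lu_deriv_iter, lu_eval]
            exact h0
        exact lt_irrefl _ h1
    · exact closure_minimal (iUnion_subset fun μ => inter_subset_left) hGrcl
  rw [hcl]
  exact SA.closure (SAP.congr (SAP.exists_fin fun μ : Fin (N + 1) => hW μ) fun w => mem_iUnion)

end Pool.Agent.Q10.MZ
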