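import Pool.Agent.TH729.SQ.Tools

/-!
# Semialgebraic sets over `ℚ`: the form of the problem, parameters, rational points
-/

set_option autoImplicit false

namespace Pool.Agent.Q10.MZ

open Set Filter Topology Pool.Agent.H581R2 Pool.Agent.TH729.SQ

/-- Semialgebraic sets defined over `ℚ`: the finite unions of sets
`{p = 0, q₁ > 0, …, q_k > 0}`, where `p` and the `qᵢ` are polynomials with rational
coefficients. -/
def Semialgebraic {ι : Type} (S : Set (ι → ℝ)) : Prop :=
  ∃ (m : ℕ) (P : Fin m → MvPolynomial ι ℚ) (G : Fin m → Finset (MvPolynomial ι ℚ)),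
    S = {x : ι → ℝ | ∃ j : Fin m, (MvPolynomial.aeval x (P j) : ℝ) = 0 ∧
      ∀ g ∈ G j, (0 : ℝ) < MvPolynomial.aeval x g}

/-- semialgebraic sets over `ℚ`, the classical form -/
theorem semialgebraic_of_SA {ι : Type} {S : Set (ι → ℝ)} (h : SA S) :
    Semialgebraic S := by
  classical
  obtain ⟨Q, hQ⟩ := h
  let T := {τ : {q // q ∈ Q} → SignType // ∃ x ∈ S, ∀ q, SignType.sign
    (MvPolynomial.aeval x q.1 : ℝ) = τ q}
  have : Fintype T := Fintype.ofFinite T
  let e : Fin (Fintype.card T) ≃ T := (Fintype.equivFin T).symm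
  refine ⟨Fintype.card T, fun j => ∑ q : {q // q ∈ Q}, if (e j).1 q = 0 then q.1 ^ 2 else 0,
    fun j => Finset.univ.image (fun q : {q // q ∈ Q} =>
      if (e j).1 q = 0 then 1 else if (e j).1 q = 1 then q.1 else -q.1), ?_⟩
  have key : ∀ (τ : {q // q ∈ Q} → SignType) (x : ι → ℝ),
      (∀ q, SignType.sign (MvPolynomial.aeval x q.1 : ℝ) = τ q) ↔
      (MvPolynomial.aeval x (∑ q : {q // q ∈ Q}, if τ q = 0 then q.1 ^ 2 else 0) : ℝ) = 0 ∧
      ∀ q : {q // q ∈ Q}, (0 : ℝ) < MvPolynomial.aeval x
        (if τ q = 0 then 1 else if τ q = 1 then q.1 else -q.1) := by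
    intro τ x
    have e1 : (MvPolynomial.aeval x (∑ q : {q // q ∈ Q}, if τ q = 0 then q.1 ^ 2 else 0) : ℝ) =
        ∑ q : {q // q ∈ Q}, if τ q = 0 then (MvPolynomial.aeval x q.1 : ℝ) ^ 2 else 0 := by
      rw [map_sum]
      refine Finset.sum_congr rfl fun q _ => ?_
      split_ifs
      · rw [map_pow]
      · rw [map_zero]
    rw [e1, Finset.sum_eq_zero_iff_of_nonneg (fun q _ => by split_ifs <;> positivity)]
    constructor
    · intro h
      refine ⟨fun q _ => ?_, fun q => ?_⟩
      · by_cases h0 : τ q = 0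
        · rw [if_pos h0]
          have := h q
          rw [h0, sign_eq_zero_iff] at this
          rw [this]
          norm_num
        · rw [if_neg h0]
      · by_cases h0 : τ q = 0
        · rw [if_pos h0]
          simp
        · rw [if_neg h0]
          by_cases h1 : τ q = 1
          · rw [if_pos h1]
            have := h q
            rw [h1, sign_eq_one_iff] at this
            exact this
          · rw [if_neg h1]
            have h2 : τ q = -1 := by
              rcases h3 : τ q with _ | _ | _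
              · exact absurd h3 h0
              · rfl
              · exact absurd h3 h1
            have := h q
            rw [h2, sign_eq_neg_one_iff] at this
            rw [map_neg]
            linarith
    · rintro ⟨h1, h2⟩ q
      have h3 := h1 q (Finset.mem_univ _)
      have h4 := h2 q
      by_cases h0 : τ q = 0
      · rw [if_pos h0] at h3
        rw [h0, sign_eq_zero_iff]
        exact pow_eq_zero_iff (two_ne_zero) |>.1 h3
      · rw [if_neg h0] at h4
        by_cases h5 : τ q = 1
        · rw [if_pos h5] at h4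
          rw [h5, sign_eq_one_iff]
          exact h4
        · rw [if_neg h5] at h4
          have h6 : τ q = -1 := by
            rcases h3 : τ q with _ | _ | _
            · exact absurd h3 h0
            · rfl
            · exact absurd h3 h5
          rw [h6, sign_eq_neg_one_iff]
          rw [map_neg] at h4
          linarith
  ext x
  simp only [mem_ofPred_eq, Finset.mem_image, Finset.mem_univ, true_and,
    forall_exists_index, forall_apply_eq_imp_iff]
  constructor
  · intro hx
    let τ : T := ⟨fun q => SignType.sign (MvPolynomial.aeval x q.1 : ℝ), x, hx, fun q => rfl⟩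
    refine ⟨e.symm τ, ?_⟩
    rw [e.apply_symm_apply]
    exact (key τ.1 x).1 fun q => rfl
  · rintro ⟨j, hj⟩
    have h1 := (key _ x).2 hj
    obtain ⟨y, hy, hy2⟩ := (e j).2
    exact hQ y x (fun q hq => by rw [hy2 ⟨q, hq⟩, h1 ⟨q, hq⟩]) hy


theorem SA_of_semialgebraic {ι : Type} {S : Set (ι → ℝ)} (h : Semialgebraic S) : SA S := by
  obtain ⟨m, P, G, rfl⟩ := h
  refine SAP.exists_fin fun j => (SAP.eq_zero (PF.aeval _)).and ?_
  exact SAP.forall_mem (G j) fun g _ => SAP.pos (PF.aeval g)

theorem semialgebraic_iff {ι : Type} {S : Set (ι → ℝ)} : Semialgebraic S ↔ SA S :=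
  ⟨SA_of_semialgebraic, semialgebraic_of_SA⟩

/-- a point with algebraic coordinates is semialgebraic over `ℚ` -/
lemma SA_point {κ : Type} [Finite κ] {a : κ → ℝ} (ha : ∀ k, IsAlgebraic ℚ (a k)) :
    SA ({a} : Set (κ → ℝ)) := by
  classical
  have := Fintype.ofFinite κ
  set Z : Set (κ → ℝ) := {u | ∀ k, Polynomial.aeval (u k) (minpoly ℚ (a k)) = 0} with hZ
  have hZf : Z.Finite := by
    have h1 : Z ⊆ Set.pi univ fun k => {t : ℝ | Polynomial.aeval t (minpoly ℚ (a k)) = 0} :=
      fun u hu k _ => hu k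
    refine (Set.Finite.pi fun k => ?_).subset h1
    have h2 : minpoly ℚ (a k) ≠ 0 := minpoly.ne_zero (ha k).isIntegral
    have h3 : (minpoly ℚ (a k)).map (algebraMap ℚ ℝ) ≠ 0 :=
      (Polynomial.map_ne_zero_iff (algebraMap ℚ ℝ).injective).2 h2
    refine ((minpoly ℚ (a k)).map (algebraMap ℚ ℝ)).roots.toFinset.finite_toSet.subset ?_
    intro t ht
    simp only [Finset.mem_coe, Multiset.mem_toFinset, Polynomial.mem_roots h3,
      Polynomial.IsRoot.def, Polynomial.eval_map_algebraMap]
    exact ht
  have hZs : SA Z := by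
    refine SAP.forall_fin fun k => SAP.eq_zero ?_
    refine ⟨Polynomial.aeval (MvPolynomial.X k) (minpoly ℚ (a k)), fun v => ?_⟩
    rw [← Polynomial.aeval_algHom_apply, MvPolynomial.aeval_X]
  refine sa_of_lc κ Z {a} hZs ?_ ?_
  · intro u hu k
    rw [mem_singleton_iff.1 hu]
    exact minpoly.aeval ℚ (a k)
  · intro x hx
    have h3 : Z ∩ {x} ∈ 𝓝[Z] x := by
      have h4 : IsClosed (Z \ {x}) := (hZf.subset sdiff_subset).isClosed
      have h5 : (Z \ {x})ᶜ ∈ 𝓝 x := h4.isOpen_compl.mem_nhds (fun h => h.2 rfl)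
      filter_upwards [self_mem_nhdsWithin, nhdsWithin_le_nhds h5] with y hy hy2
      refine ⟨hy, ?_⟩
      by_contra hne
      exact hy2 ⟨hy, hne⟩
    filter_upwards [h3] with y hy
    rw [mem_singleton_iff.1 hy.2]

/-- algebraic parameters -/
lemma SA_of_param {ι κ : Type} [Finite κ] {S : Set (κ ⊕ ι → ℝ)} (hS : SA S) {a : κ → ℝ}
    (ha : ∀ k, IsAlgebraic ℚ (a k)) : SA {v : ι → ℝ | Sum.elim a v ∈ S} := by
  refine SAP.congr (SAP.exists_fun κ ι (fun w => (fun k => w (Sum.inl k)) ∈ ({a} : Set (κ → ℝ)) ∧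
    w ∈ S) ?_) fun v => ?_
  · exact (SAP.preimage (p := fun v => v ∈ ({a} : Set (κ → ℝ))) (SA_point ha)
      (fun i => PF.coord _)).and hS
  · constructor
    · intro h
      exact ⟨a, rfl, h⟩
    · rintro ⟨u, hu, h⟩
      have : u = a := hu
      rw [this] at h
      exact h


/-- the real points given by rational points -/
def rl {n : Type} (D : Set (n → ℚ)) : Set (n → ℝ) := {x | ∃ r ∈ D, x = fun i => (r i : ℝ)}

lemma aeval_cast {n : Type} (r : n → ℚ) (p : MvPolynomial n ℚ) :
    (MvPolynomial.aeval (fun i => (r i : ℝ)) p : ℝ) = ((MvPolynomial.eval r p : ℚ) : ℝ) := by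
  induction p using MvPolynomial.induction_on with
  | C a => simp
  | add p q hp hq => simp [hp, hq]
  | mul_X p i hp => simp [hp]

end Pool.Agent.Q10.MZ
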