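import Pool.Agent.Q10.MZ.Dio

/-!
# The local form for intersections of quadrics on a sphere implies the global form
-/

set_option autoImplicit false

namespace Pool.Agent.Q10.MZ

open Set Filter Topology Pool.Agent.H581R2 Pool.Agent.TH729.SQ

/-- compactness -/
lemma SA_cube' {n : ℕ} {C : Set (Fin n → ℝ)} (h : ∀ a, SAat C a) (R : ℕ) :
    SAP (fun x : Fin n → ℝ => x ∈ C ∧ ∀ i, -(R : ℝ) ≤ x i ∧ x i ≤ R) := by
  classical
  have hbox : ∀ a : Fin n → ℝ, ∃ (S : Set (Fin n → ℝ)) (p q : Fin n → ℚ), SA S ∧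
      (∀ i, (p i : ℝ) < a i ∧ a i < q i) ∧
      ∀ x : Fin n → ℝ, (∀ i, (p i : ℝ) < x i ∧ x i < q i) → (x ∈ C ↔ x ∈ S) := by
    intro a
    obtain ⟨S, hS, hev⟩ := h a
    obtain ⟨ε, hε, hball⟩ := Metric.eventually_nhds_iff.1 hev
    have hp : ∀ i, ∃ p : ℚ, a i - ε < p ∧ (p : ℝ) < a i := fun i =>
      exists_rat_btwn (by linarith)
    have hq : ∀ i, ∃ q : ℚ, a i < q ∧ (q : ℝ) < a i + ε := fun i =>
      exists_rat_btwn (by linarith)
    choose p hp1 hp2 using hp
    choose q hq1 hq2 using hq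
    refine ⟨S, p, q, hS, fun i => ⟨hp2 i, hq1 i⟩, fun x hx => hball ?_⟩
    rw [dist_pi_lt_iff hε]
    intro i
    rw [Real.dist_eq, abs_lt]
    have h1 := hx i
    have h2 := hp1 i
    have h3 := hq2 i
    constructor <;> linarith [h1.1, h1.2]
  choose S p q hS hpq hC using hbox
  have hK : IsCompact (Set.Icc (fun _ => -(R : ℝ) : Fin n → ℝ) (fun _ => (R : ℝ))) := isCompact_Icc
  obtain ⟨t, -, ht⟩ := hK.elim_nhds_subcover
    (fun a => {x : Fin n → ℝ | ∀ i, (p a i : ℝ) < x i ∧ x i < q a i}) (by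
      intro a _
      have h1 : ∀ᶠ x : Fin n → ℝ in 𝓝 a, ∀ i, (p a i : ℝ) < x i ∧ x i < q a i := by
        rw [Filter.eventually_all]
        intro i
        exact (((continuous_apply i).tendsto a).eventually_const_lt (hpq a i).1).and
          (((continuous_apply i).tendsto a).eventually_lt_const (hpq a i).2)
      exact h1)
  refine SAP.congr (SAP.and (SAP.exists_mem t
    (p := fun a (x : Fin n → ℝ) => (∀ i, (p a i : ℝ) < x i ∧ x i < q a i) ∧ x ∈ S a) fun a _ =>
      SAP.and (SAP.forall_fin fun i => (SAP.lt (PF.const (p a i)) (PF.coord i)).and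
        (SAP.lt (PF.coord i) (PF.const (q a i)))) (hS a))
    (SAP.forall_fin (p := fun i (x : Fin n → ℝ) => ((-(R : ℚ) : ℚ) : ℝ) ≤ x i ∧
        x i ≤ (((R : ℚ) : ℚ) : ℝ))
      fun i => (SAP.le (PF.const (-(R : ℚ))) (PF.coord i)).and
        (SAP.le (PF.coord i) (PF.const (R : ℚ))))) fun x => ?_
  push_cast
  constructor
  · rintro ⟨h1, h2⟩
    refine ⟨?_, h2⟩
    have h3 := ht (show x ∈ Set.Icc _ _ from ⟨fun i => (h2 i).1, fun i => (h2 i).2⟩)
    simp only [mem_iUnion] at h3
    obtain ⟨a, ha, hx⟩ := h3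
    exact ⟨a, ha, hx, (hC a x hx).1 h1⟩
  · rintro ⟨⟨a, -, hx, hxS⟩, h2⟩
    exact ⟨(hC a x hx).2 hxS, h2⟩

/-- projections to coordinates -/
lemma SA_proj {ι κ : Type} [Finite ι] [Finite κ] {C : Set (κ → ℝ)} (hC : SA C) (f : ι → κ) :
    SA ((fun (z : κ → ℝ) i => z (f i)) '' C) := by
  refine SAP.congr (SAP.exists_fun κ ι (fun w =>
    (fun i => w (Sum.inl i)) ∈ C ∧ ∀ i, w (Sum.inl (f i)) = w (Sum.inr i)) ?_)
    fun v => ?_
  · exact (SAP.preimage (p := fun v => v ∈ C) hC (fun i => PF.coord _)).and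
      (SAP.forall_fin fun i => SAP.eq (PF.coord _) (PF.coord _))
  · constructor
    · rintro ⟨z, hz, rfl⟩
      exact ⟨z, hz, fun i => rfl⟩
    · rintro ⟨z, hz, h⟩
      exact ⟨z, hz, funext h⟩

/-! ### the system on the sphere -/

/-- the equation of the sphere of radius `R` -/
noncomputable def sph (N R : ℕ) : MvPolynomial (Fin N) ℚ :=
  ∑ j, MvPolynomial.X j ^ 2 - MvPolynomial.C ((R : ℚ) ^ 2)

lemma sph_deg (N R : ℕ) : (sph N R).totalDegree ≤ 2 := by
  refine (MvPolynomial.totalDegree_sub _ _).trans (max_le ?_ ?_)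
  · refine (MvPolynomial.totalDegree_finsetSum _ _).trans (Finset.sup_le fun j _ => ?_)
    refine (MvPolynomial.totalDegree_pow _ _).trans ?_
    have := totalDegree_X_le (σ := Fin N) j
    omega
  · rw [MvPolynomial.totalDegree_C]
    norm_num

lemma eval_sph (N R : ℕ) (z : Fin N → ℚ) : MvPolynomial.eval z (sph N R) = 0 ↔
    ∑ j, z j ^ 2 = (R : ℚ) ^ 2 := by
  rw [sph, map_sub, map_sum, MvPolynomial.eval_C, sub_eq_zero]
  simp only [map_pow, MvPolynomial.eval_X]

lemma aeval_sph (N R : ℕ) (z : Fin N → ℝ) : (MvPolynomial.aeval z (sph N R) : ℝ) = 0 ↔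
    ∑ j, z j ^ 2 = (R : ℝ) ^ 2 := by
  rw [sph, map_sub, map_sum, MvPolynomial.aeval_C, sub_eq_zero]
  simp only [map_pow, MvPolynomial.aeval_X]
  norm_num

/-- the rational points near the origin, by quadrics on a sphere -/
theorem exists_E
    (h : ∀ (n : ℕ) (T : Finset (MvPolynomial (Fin n) ℚ)), (∀ q ∈ T, q.totalDegree ≤ 2) →
      (∃ R : ℕ, ∀ x : Fin n → ℝ, (∀ q ∈ T, (MvPolynomial.aeval x q : ℝ) = 0) →
        ∑ i, x i ^ 2 = (R : ℝ) ^ 2) → ∀ a, SAat (closure (rl (Zq T))) a)
    {n : ℕ} (F : Finset (MvPolynomial (Fin n) ℚ)) :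
    ∃ E : Set (Fin n → ℚ), E ⊆ Zq F ∧ (∀ x ∈ Zq F, (∀ i, |x i| ≤ 1) → x ∈ E) ∧
      SA (closure (rl E)) := by
  classical
  obtain ⟨D, hD⟩ : ∃ D, ∀ f ∈ F, f.totalDegree ≤ D :=
    ⟨F.sup MvPolynomial.totalDegree, fun f hf => Finset.le_sup (f := MvPolynomial.totalDegree) hf⟩
  let e := Fintype.equivFin ((Fin n ⊕ Ex n D) ⊕ Fin 4)
  set N := Fintype.card ((Fin n ⊕ Ex n D) ⊕ Fin 4) with hN
  set R : ℕ := Fintype.card (Fin n ⊕ Ex n D) + 1 with hR
  set T : Finset (MvPolynomial (Fin N) ℚ) := insert (sph N R)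
    ((sys D F).image (MvPolynomial.rename (fun s => e (Sum.inl s)))) with hT
  have hdeg : ∀ q ∈ T, q.totalDegree ≤ 2 := by
    intro q hq
    rcases Finset.mem_insert.1 hq with rfl | hq
    · exact sph_deg N R
    · obtain ⟨q', hq', rfl⟩ := Finset.mem_image.1 hq
      exact (MvPolynomial.totalDegree_rename_le _ _).trans (sys_deg F q' hq')
  have hsph : ∀ x : Fin N → ℝ, (∀ q ∈ T, (MvPolynomial.aeval x q : ℝ) = 0) →
        ∑ i, x i ^ 2 = (R : ℝ) ^ 2 := fun x hx =>
    (aeval_sph N R x).1 (hx _ (Finset.mem_insert_self _ _))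
  have hloc := h N T hdeg ⟨R, hsph⟩
  -- the closure is semialgebraic
  have hSA : SA (closure (rl (Zq T))) := by
    refine SAP.congr (SA_cube' hloc R) fun x => ?_
    constructor
    · intro hx
      refine ⟨hx, ?_⟩
      have h1 : x ∈ {x : Fin N → ℝ | ∑ i, x i ^ 2 = (R : ℝ) ^ 2} := by
        have hcl : IsClosed {x : Fin N → ℝ | ∑ i, x i ^ 2 = (R : ℝ) ^ 2} :=
          isClosed_eq (continuous_finsetSum _ fun i _ => (continuous_apply i).pow 2)
            continuous_const
        refine closure_minimal ?_ hcl hx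
        rintro _ ⟨r, hr, rfl⟩
        have h2 := (eval_sph N R r).1 (hr _ (Finset.mem_insert_self _ _))
        change ∑ i, ((r i : ℚ) : ℝ) ^ 2 = (R : ℝ) ^ 2
        exact_mod_cast h2
      intro i
      rw [← abs_le]
      have h2 : x i ^ 2 ≤ (R : ℝ) ^ 2 := by
        have h3 : ∑ i, x i ^ 2 = (R : ℝ) ^ 2 := h1
        rw [← h3]
        exact Finset.single_le_sum (f := fun i => x i ^ 2) (fun _ _ => sq_nonneg _)
          (Finset.mem_univ i)
      exact abs_le_of_sq_le_sq h2 (Nat.cast_nonneg R)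
    · exact fun hx => hx.1
  refine ⟨(fun (z : Fin N → ℚ) i => z (e (Sum.inl (Sum.inl i)))) '' Zq T, ?_, ?_, ?_⟩
  · rintro _ ⟨z, hz, rfl⟩
    have h1 : ∀ q ∈ sys D F, MvPolynomial.eval (Sum.elim (fun i => z (e (Sum.inl (Sum.inl i))))
        (fun m => z (e (Sum.inl (Sum.inr m))))) q = 0 := by
      intro q hq
      have h2 := hz _ (Finset.mem_insert_of_mem (Finset.mem_image_of_mem _ hq))
      rw [MvPolynomial.eval_rename] at h2
      rw [← h2]
      congr 2
      funext s
      rcases s with s | s <;> rfl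
    exact ((sys_iff F hD _ _).1 h1).1
  · intro x hx hx1
    have hbound : ∀ s : Fin n ⊕ Ex n D,
        (Sum.elim x (fun m : Ex n D => ∏ i, x i ^ (m i : ℕ)) s) ^ 2 ≤ 1 := by
      intro s
      rw [sq_le_one_iff_abs_le_one]
      rcases s with i | m
      · exact hx1 i
      · rw [Sum.elim_inr, Finset.abs_prod]
        refine Finset.prod_le_one (fun i _ => abs_nonneg _) fun i _ => ?_
        rw [abs_pow]
        exact pow_le_one₀ (abs_nonneg _) (hx1 i)
    have hsum : ∑ s : Fin n ⊕ Ex n D,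
        (Sum.elim x (fun m : Ex n D => ∏ i, x i ^ (m i : ℕ)) s) ^ 2 ≤ (R : ℚ) ^ 2 := by
      have h1 : ∑ s : Fin n ⊕ Ex n D,
          (Sum.elim x (fun m : Ex n D => ∏ i, x i ^ (m i : ℕ)) s) ^ 2 ≤
          ∑ s : Fin n ⊕ Ex n D, (1 : ℚ) := Finset.sum_le_sum fun s _ => hbound s
      have h2 : ∑ s : Fin n ⊕ Ex n D, (1 : ℚ) = (Fintype.card (Fin n ⊕ Ex n D) : ℚ) := by
        rw [Finset.sum_const, Finset.card_univ, nsmul_eq_mul, mul_one]
      have h3 : (Fintype.card (Fin n ⊕ Ex n D) : ℚ) ≤ R := by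
        rw [hR]
        push_cast
        linarith
      have h4 : (1 : ℚ) ≤ R := by
        rw [hR]
        push_cast
        have : (0 : ℚ) ≤ (Fintype.card (Fin n ⊕ Ex n D) : ℚ) := Nat.cast_nonneg _
        linarith
      nlinarith
    obtain ⟨w, hw⟩ := four_squares ((R : ℚ) ^ 2 - ∑ s : Fin n ⊕ Ex n D,
        (Sum.elim x (fun m : Ex n D => ∏ i, x i ^ (m i : ℕ)) s) ^ 2) (by linarith)
    set z₀ : (Fin n ⊕ Ex n D) ⊕ Fin 4 → ℚ :=
      Sum.elim (Sum.elim x (fun m : Ex n D => ∏ i, x i ^ (m i : ℕ))) w with hz₀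
    refine ⟨z₀ ∘ e.symm, ?_, ?_⟩
    · intro q hq
      rcases Finset.mem_insert.1 hq with rfl | hq
      · rw [eval_sph]
        have h1 : ∑ j, (z₀ ∘ e.symm) j ^ 2 = ∑ s, z₀ s ^ 2 :=
          Equiv.sum_comp e.symm (fun s => z₀ s ^ 2)
        rw [h1, Fintype.sum_sum_type]
        simp only [hz₀, Sum.elim_inl, Sum.elim_inr]
        linarith
      · obtain ⟨q', hq', rfl⟩ := Finset.mem_image.1 hq
        rw [MvPolynomial.eval_rename]
        have h1 : (z₀ ∘ e.symm) ∘ (fun s => e (Sum.inl s)) =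
            Sum.elim x (fun m : Ex n D => ∏ i, x i ^ (m i : ℕ)) := by
          funext s
          simp [hz₀]
        rw [h1]
        exact (sys_iff F hD x _).2 ⟨hx, fun _ => rfl⟩ q' hq'
    · funext i
      simp [hz₀]
  · set E : Set (Fin n → ℚ) := (fun (z : Fin N → ℚ) i => z (e (Sum.inl (Sum.inl i)))) '' Zq T
      with hE
    let π : (Fin N → ℝ) → Fin n → ℝ := fun z i => z (e (Sum.inl (Sum.inl i)))
    have hπ : Continuous π := continuous_pi fun i => continuous_apply _
    have hrl : rl E = π '' rl (Zq T) := by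
      ext x
      constructor
      · rintro ⟨_, ⟨z, hz, rfl⟩, rfl⟩
        exact ⟨fun j => (z j : ℝ), ⟨z, hz, rfl⟩, rfl⟩
      · rintro ⟨_, ⟨z, hz, rfl⟩, rfl⟩
        exact ⟨_, ⟨z, hz, rfl⟩, rfl⟩
    have hcl : closure (rl E) = closure (π '' closure (rl (Zq T))) := by
      rw [hrl]
      apply Subset.antisymm
      · exact closure_mono (image_mono subset_closure)
      · exact closure_minimal (image_closure_subset_closure_image hπ) isClosed_closure
    rw [hcl]
    exact SA.closure (SA_proj hSA _)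

/-- from quartics to quadrics, on a sphere -/
theorem quadrics_of_quartics'
    (h : ∀ (n : ℕ) (f : MvPolynomial (Fin n) ℚ), f.totalDegree ≤ 4 →
      (∀ x : Fin n → ℝ, 0 ≤ (MvPolynomial.aeval x f : ℝ)) →
      (∃ R : ℕ, ∀ x : Fin n → ℝ, (MvPolynomial.aeval x f : ℝ) = 0 →
        ∑ i, x i ^ 2 = (R : ℝ) ^ 2) →
      ∀ a, SAat (closure (rl {x | MvPolynomial.eval x f = 0})) a) :
    ∀ (n : ℕ) (T : Finset (MvPolynomial (Fin n) ℚ)), (∀ q ∈ T, q.totalDegree ≤ 2) →
      (∃ R : ℕ, ∀ x : Fin n → ℝ, (∀ q ∈ T, (MvPolynomial.aeval x q : ℝ) = 0) →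
        ∑ i, x i ^ 2 = (R : ℝ) ^ 2) → ∀ a, SAat (closure (rl (Zq T))) a := by
  intro n T hT hR a
  obtain ⟨R, hR⟩ := hR
  have h0 : ∀ x : Fin n → ℝ, (MvPolynomial.aeval x (∑ q ∈ T, q ^ 2) : ℝ) =
      ∑ q ∈ T, (MvPolynomial.aeval x q : ℝ) ^ 2 := by
    intro x
    rw [map_sum]
    exact Finset.sum_congr rfl fun q _ => map_pow _ _ _
  have h1 := h n (∑ q ∈ T, q ^ 2) (sumsq T hT).1 (fun x => by
    rw [h0]
    positivity) ⟨R, fun x hx => hR x fun q hq => by
      rw [h0, Finset.sum_eq_zero_iff_of_nonneg (fun q _ => sq_nonneg _)] at hx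
      exact pow_eq_zero_iff two_ne_zero |>.1 (hx q hq)⟩ a
  have h2 : {x : Fin n → ℚ | MvPolynomial.eval x (∑ q ∈ T, q ^ 2) = 0} = Zq T := by
    ext x
    exact (sumsq T hT).2 x
  rwa [h2] at h1

/-- the local form on spheres implies the global form -/
theorem global_of_sphere
    (h : ∀ (n : ℕ) (T : Finset (MvPolynomial (Fin n) ℚ)), (∀ q ∈ T, q.totalDegree ≤ 2) →
      (∃ R : ℕ, ∀ x : Fin n → ℝ, (∀ q ∈ T, (MvPolynomial.aeval x q : ℝ) = 0) →
        ∑ i, x i ^ 2 = (R : ℝ) ^ 2) → ∀ a, SAat (closure (rl (Zq T))) a)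
    (n : ℕ) (F : Finset (MvPolynomial (Fin n) ℚ)) :
    SA (closure (rl (Zq F))) := by
  classical
  have hch := fun (I : Finset (Fin n)) (f : MvPolynomial (Fin n) ℚ) => exists_chart I f
  choose M hp hhp using hch
  have hiff : ∀ (I : Finset (Fin n)) (u : Fin n → ℚ), (∀ i ∈ I, u i ≠ 0) →
      (u ∈ Zq (F.image (hp I)) ↔ th I u ∈ Zq F) := by
    intro I u hu
    have hprod : (∏ i ∈ I, u i) ≠ 0 := Finset.prod_ne_zero_iff.2 hu
    constructor
    · intro h1 f hf
      have h2 := h1 _ (Finset.mem_image_of_mem _ hf)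
      rw [hhp I f u hu] at h2
      exact (mul_eq_zero.1 h2).resolve_left (pow_ne_zero _ hprod)
    · intro h1 g hg
      obtain ⟨f, hf, rfl⟩ := Finset.mem_image.1 hg
      rw [hhp I f u hu, h1 f hf, mul_zero]
  choose E hE1 hE2 hE3 using fun I : Finset (Fin n) => exists_E h (F.image (hp I))
  refine SAP.congr (p := fun x : Fin n → ℝ => ∃ I : Finset (Fin n), ∃ u : Fin n → ℝ,
    u ∈ closure (rl (E I)) ∧ ∀ i, (i ∈ I → u i * x i = 1) ∧ (i ∉ I → u i = x i)) ?_ fun x => ?_
  · refine SAP.exists_fin fun I => ?_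
    refine SAP.congr (SAP.exists_fun (Fin n) (Fin n) (fun w =>
      ((fun i => w (Sum.inl i)) ∈ closure (rl (E I))) ∧
      ∀ i, (i ∈ I → w (Sum.inl i) * w (Sum.inr i) = ((1 : ℚ) : ℝ)) ∧
        (i ∉ I → w (Sum.inl i) = w (Sum.inr i))) ?_) fun v => by simp
    refine SAP.and ?_ (SAP.forall_fin fun i => SAP.and ?_ ?_)
    · exact SAP.preimage (p := fun v => v ∈ closure (rl (E I))) (hE3 I) (fun i => PF.coord _)
    · exact (SAP.const _).imp (SAP.eq ((PF.coord _).mul (PF.coord _)) (PF.const 1))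
    · exact (SAP.const _).imp (SAP.eq (PF.coord _) (PF.coord _))
  · constructor
    · intro hx
      let B : Finset (Fin n) → Set (Fin n → ℝ) := fun I =>
        {x | ∀ i, (i ∈ I → 1 ≤ |x i|) ∧ (i ∉ I → |x i| ≤ 1)}
      have hBcl : ∀ I, IsClosed (B I) := by
        intro I
        have h1 : B I = ⋂ i, {x : Fin n → ℝ | (i ∈ I → 1 ≤ |x i|) ∧ (i ∉ I → |x i| ≤ 1)} := by
          ext x
          simp [B]
        rw [h1]
        refine isClosed_iInter fun i => ?_
        by_cases hi : i ∈ I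
        · simp only [hi, true_imp_iff, not_true, false_imp_iff, and_true]
          exact isClosed_le continuous_const (continuous_apply i).abs
        · simp only [hi, false_imp_iff, not_false_eq_true, true_imp_iff, true_and]
          exact isClosed_le (continuous_apply i).abs continuous_const
      have hU : rl (Zq F) = ⋃ I, (rl (Zq F) ∩ B I) := by
        ext y
        rw [mem_iUnion]
        constructor
        · intro hy
          refine ⟨Finset.univ.filter fun i => 1 < |y i|, hy, fun i => ⟨fun hi => ?_,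
            fun hi => ?_⟩⟩
          · exact (Finset.mem_filter.1 hi).2.le
          · exact not_lt.1 fun h => hi (Finset.mem_filter.2 ⟨Finset.mem_univ i, h⟩)
        · rintro ⟨I, hy, -⟩
          exact hy
      have hx' : x ∈ closure (⋃ I, (rl (Zq F) ∩ B I)) := by
        rw [← hU]
        exact hx
      rw [closure_iUnion_of_finite, mem_iUnion] at hx'
      obtain ⟨I, hxI⟩ := hx'
      have hxB : x ∈ B I := closure_minimal inter_subset_right (hBcl I) hxI
      have hx0 : ∀ i ∈ I, x i ≠ 0 := by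
        intro i hi h0
        have := (hxB i).1 hi
        rw [h0, abs_zero] at this
        linarith
      have hc : ContinuousAt (th I : (Fin n → ℝ) → Fin n → ℝ) x := by
        refine continuousAt_pi.2 fun i => ?_
        unfold th
        by_cases hi : i ∈ I
        · simp only [hi, if_true]
          exact (continuous_apply i).continuousAt.inv₀ (hx0 i hi)
        · simp only [hi, if_false]
          exact (continuous_apply i).continuousAt
      refine ⟨I, th I x, ?_, fun i => ⟨fun hi => ?_, fun hi => ?_⟩⟩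
      · refine closure_mono ?_ (hc.continuousWithinAt.mem_closure_image hxI)
        rintro _ ⟨y, ⟨⟨r, hr, rfl⟩, hy⟩, rfl⟩
        have hr0 : ∀ i ∈ I, r i ≠ 0 := by
          intro i hi h0
          have h1 := (hy i).1 hi
          simp only [h0, Rat.cast_zero, abs_zero] at h1
          linarith
        refine ⟨th I r, hE2 I _ ?_ ?_, rl_cast_th I r⟩
        · rw [hiff I _ (fun i hi => ?_), th_th]
          · exact hr
          · simp only [th, hi, if_true]
            exact inv_ne_zero (hr0 i hi)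
        · intro i
          by_cases hi : i ∈ I
          · simp only [th, hi, if_true]
            rw [abs_inv]
            have h1 : (1 : ℝ) ≤ |((r i : ℚ) : ℝ)| := (hy i).1 hi
            have h2 : (1 : ℚ) ≤ |r i| := by exact_mod_cast h1
            exact inv_le_one_of_one_le₀ h2
          · simp only [th, hi, if_false]
            have h1 : |((r i : ℚ) : ℝ)| ≤ (1 : ℝ) := (hy i).2 hi
            exact_mod_cast h1
      · simp only [th, hi, if_true]
        exact inv_mul_cancel₀ (hx0 i hi)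
      · simp only [th, hi, if_false]
    · rintro ⟨I, u, h1, h3⟩
      have hx0 : ∀ i ∈ I, x i ≠ 0 := by
        intro i hi h0
        have := (h3 i).1 hi
        rw [h0, mul_zero] at this
        exact zero_ne_one this
      have hu0 : ∀ i ∈ I, u i ≠ 0 := by
        intro i hi h0
        have := (h3 i).1 hi
        rw [h0, zero_mul] at this
        exact zero_ne_one this
      have h4 : th I u = x := by
        funext i
        by_cases hi : i ∈ I
        · simp only [th, hi, if_true]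
          exact (eq_inv_of_mul_eq_one_right ((h3 i).1 hi)).symm
        · simp only [th, hi, if_false]
          exact (h3 i).2 hi
      have h5 := closure_chart I (E I) (Zq F)
        (fun v hv hvE => (hiff I v hv).1 (hE1 I hvE)) u hu0 h1
      rwa [h4] at h5

end Pool.Agent.Q10.MZ
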