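import Pool.Agent.Q10.MZ.Loc

/-!
# Diophantine sets over `ℚ` with semialgebraic conditions
-/

set_option autoImplicit false

namespace Pool.Agent.Q10.MZ

open Set Filter Topology Pool.Agent.H581R2 Pool.Agent.TH729.SQ

/-- Diophantine sets over `ℚ` -/
def Dio {ι : Type} (D : Set (ι → ℚ)) : Prop :=
  ∃ (κ : Type) (_ : Finite κ) (F : Finset (MvPolynomial (ι ⊕ κ) ℚ)),
    ∀ x, x ∈ D ↔ ∃ y : κ → ℚ, ∀ f ∈ F, MvPolynomial.eval (Sum.elim x y) f = 0

variable {ι : Type}

lemma Dio.univ : Dio (Set.univ : Set (ι → ℚ)) :=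
  ⟨Empty, inferInstance, ∅, fun x => ⟨fun _ => ⟨fun s => s.elim, by simp⟩, fun _ => trivial⟩⟩

lemma Dio.congr {D D' : Set (ι → ℚ)} (h : Dio D) (he : ∀ x, x ∈ D' ↔ x ∈ D) : Dio D' := by
  have : D' = D := Set.ext he
  rwa [this]

lemma Dio.inter {D D' : Set (ι → ℚ)} (h : Dio D) (h' : Dio D') : Dio (D ∩ D') := by
  classical
  obtain ⟨κ, hκ, F, hF⟩ := h
  obtain ⟨κ', hκ', F', hF'⟩ := h'
  refine ⟨κ ⊕ κ', inferInstance, F.image (MvPolynomial.rename (Sum.map id Sum.inl)) ∪
    F'.image (MvPolynomial.rename (Sum.map id Sum.inr)), fun x => ?_⟩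
  have e1 : ∀ y : κ ⊕ κ' → ℚ, (Sum.elim x y) ∘ (Sum.map id Sum.inl) =
      Sum.elim x (y ∘ Sum.inl) := by
    intro y
    funext s
    rcases s with s | s <;> rfl
  have e2 : ∀ y : κ ⊕ κ' → ℚ, (Sum.elim x y) ∘ (Sum.map id Sum.inr) =
      Sum.elim x (y ∘ Sum.inr) := by
    intro y
    funext s
    rcases s with s | s <;> rfl
  constructor
  · rintro ⟨hx, hx'⟩
    obtain ⟨y, hy⟩ := (hF x).1 hx
    obtain ⟨y', hy'⟩ := (hF' x).1 hx'
    refine ⟨Sum.elim y y', fun f hf => ?_⟩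
    rcases Finset.mem_union.1 hf with hf | hf
    · obtain ⟨g, hg, rfl⟩ := Finset.mem_image.1 hf
      rw [MvPolynomial.eval_rename, e1]
      exact hy g hg
    · obtain ⟨g, hg, rfl⟩ := Finset.mem_image.1 hf
      rw [MvPolynomial.eval_rename, e2]
      exact hy' g hg
  · rintro ⟨y, hy⟩
    refine ⟨(hF x).2 ⟨y ∘ Sum.inl, fun g hg => ?_⟩, (hF' x).2 ⟨y ∘ Sum.inr, fun g hg => ?_⟩⟩
    · have := hy _ (Finset.mem_union_left _ (Finset.mem_image_of_mem _ hg))
      rwa [MvPolynomial.eval_rename, e1] at this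
    · have := hy _ (Finset.mem_union_right _ (Finset.mem_image_of_mem _ hg))
      rwa [MvPolynomial.eval_rename, e2] at this

lemma Dio.zero (p : MvPolynomial ι ℚ) : Dio {x : ι → ℚ | MvPolynomial.eval x p = 0} := by
  classical
  refine ⟨Empty, inferInstance, {MvPolynomial.rename Sum.inl p}, fun x => ?_⟩
  have e1 : ∀ y : Empty → ℚ, (Sum.elim x y) ∘ Sum.inl = x := fun y => rfl
  constructor
  · intro hx
    refine ⟨fun s => s.elim, fun f hf => ?_⟩
    rw [Finset.mem_singleton.1 hf, MvPolynomial.eval_rename, e1]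
    exact hx
  · rintro ⟨y, hy⟩
    have := hy _ (Finset.mem_singleton_self _)
    rwa [MvPolynomial.eval_rename, e1] at this

lemma four_squares (q : ℚ) (hq : 0 ≤ q) : ∃ w : Fin 4 → ℚ, q = ∑ i, w i ^ 2 := by
  obtain ⟨a, b, c, d, h⟩ := Nat.sum_four_squares (q.num.toNat * q.den)
  have hden : (q.den : ℚ) ≠ 0 := by exact_mod_cast q.den_nz
  have hnum : ((q.num.toNat : ℕ) : ℚ) = q.num := by
    have h1 : ((q.num.toNat : ℕ) : ℤ) = q.num := Int.toNat_of_nonneg (Rat.num_nonneg.2 hq)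
    exact_mod_cast congrArg (fun z : ℤ => (z : ℚ)) h1
  refine ⟨![a / q.den, b / q.den, c / q.den, d / q.den], ?_⟩
  rw [Fin.sum_univ_four]
  simp only [Matrix.cons_val]
  have h2 : ((a : ℚ) ^ 2 + b ^ 2 + c ^ 2 + d ^ 2) = q.num * q.den := by
    rw [← hnum]
    exact_mod_cast h
  have h3 : q = q.num / q.den := (Rat.num_div_den q).symm
  rw [div_pow, div_pow, div_pow, div_pow, ← add_div, ← add_div, ← add_div, h2]
  conv_lhs => rw [h3]
  field_simp

lemma Dio.pos (p : MvPolynomial ι ℚ) : Dio {x : ι → ℚ | 0 < MvPolynomial.eval x p} := by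
  classical
  refine ⟨Fin 4 ⊕ Unit, inferInstance,
    {MvPolynomial.rename Sum.inl p - ∑ i : Fin 4, MvPolynomial.X (Sum.inr (Sum.inl i)) ^ 2,
      MvPolynomial.rename Sum.inl p * MvPolynomial.X (Sum.inr (Sum.inr ())) - 1}, fun x => ?_⟩
  have e1 : ∀ y : Fin 4 ⊕ Unit → ℚ, (Sum.elim x y) ∘ Sum.inl = x := fun y => rfl
  have key : ∀ y : Fin 4 ⊕ Unit → ℚ, (∀ f ∈ ({MvPolynomial.rename Sum.inl p -
      ∑ i : Fin 4, MvPolynomial.X (Sum.inr (Sum.inl i)) ^ 2,
      MvPolynomial.rename Sum.inl p * MvPolynomial.X (Sum.inr (Sum.inr ())) - 1} :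
      Finset (MvPolynomial (ι ⊕ (Fin 4 ⊕ Unit)) ℚ)), MvPolynomial.eval (Sum.elim x y) f = 0) ↔
      MvPolynomial.eval x p = ∑ i : Fin 4, y (Sum.inl i) ^ 2 ∧
        MvPolynomial.eval x p * y (Sum.inr ()) = 1 := by
    intro y
    simp only [Finset.mem_insert, Finset.mem_singleton, forall_eq_or_imp, forall_eq, map_sub,
      map_mul, map_one, map_sum, map_pow, MvPolynomial.eval_rename, e1, MvPolynomial.eval_X,
      Sum.elim_inr, sub_eq_zero]
  constructor
  · intro hx
    obtain ⟨w, hw⟩ := four_squares _ (le_of_lt hx)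
    refine ⟨Sum.elim w fun _ => (MvPolynomial.eval x p)⁻¹, (key _).2 ⟨hw, ?_⟩⟩
    exact mul_inv_cancel₀ (ne_of_gt hx)
  · rintro ⟨y, hy⟩
    obtain ⟨h1, h2⟩ := (key y).1 hy
    change (0 : ℚ) < MvPolynomial.eval x p
    refine lt_of_le_of_ne ?_ ?_
    · rw [h1]
      positivity
    · intro h0
      rw [← h0, zero_mul] at h2
      exact zero_ne_one h2

lemma Dio.forall_fin {α : Type} [Finite α] {D : α → Set (ι → ℚ)} (h : ∀ a, Dio (D a)) :
    Dio {x | ∀ a, x ∈ D a} := by
  classical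
  have := Fintype.ofFinite α
  have key : ∀ s : Finset α, Dio {x | ∀ a ∈ s, x ∈ D a} := by
    intro s
    induction s using Finset.induction_on with
    | empty => exact Dio.univ.congr (by simp)
    | insert a s ha ih =>
      refine ((h a).inter ih).congr fun x => ?_
      simp
  exact (key Finset.univ).congr (by simp)

lemma Dio.sign (p : MvPolynomial ι ℚ) (s : SignType) :
    Dio {x : ι → ℚ | SignType.sign (MvPolynomial.eval x p) = s} := by
  rcases s with _ | _ | _
  · refine (Dio.zero p).congr fun x => ?_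
    exact sign_eq_zero_iff
  · refine (Dio.pos (-p)).congr fun x => ?_
    simp only [mem_ofPred_eq, map_neg, Left.neg_pos_iff]
    exact sign_eq_neg_one_iff
  · refine (Dio.pos p).congr fun x => ?_
    exact sign_eq_one_iff

lemma sign_cast (r : ℚ) : SignType.sign (r : ℝ) = SignType.sign r := by
  rcases lt_trichotomy r 0 with h | h | h
  · rw [sign_neg h, sign_neg (by exact_mod_cast h)]
  · rw [h]
    simp
  · rw [sign_pos h, sign_pos (by exact_mod_cast h)]

/-- images of closures under coordinate projections -/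
theorem closure_dio
    (hQ : ∀ (n : ℕ) (F : Finset (MvPolynomial (Fin n) ℚ)), SA (closure (rl (Zq F))))
    [Finite ι] {D : Set (ι → ℚ)} (hD : Dio D) : SA (closure (rl D)) := by
  classical
  obtain ⟨κ, hκ, F, hF⟩ := hD
  have := Fintype.ofFinite ι
  have := Fintype.ofFinite κ
  let e := Fintype.equivFin (ι ⊕ κ)
  set G := F.image (MvPolynomial.rename e) with hG
  set C := closure (rl (Zq G)) with hC
  let π : (Fin (Fintype.card (ι ⊕ κ)) → ℝ) → ι → ℝ := fun z i => z (e (Sum.inl i))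
  have hπ : Continuous π := continuous_pi fun i => continuous_apply _
  have hrl : rl D = π '' rl (Zq G) := by
    ext x
    constructor
    · rintro ⟨r, hr, rfl⟩
      obtain ⟨y, hy⟩ := (hF r).1 hr
      refine ⟨fun j => ((Sum.elim r y (e.symm j) : ℚ) : ℝ), ⟨fun j => Sum.elim r y (e.symm j), ?_,
        rfl⟩, ?_⟩
      · intro g hg
        obtain ⟨f, hf, rfl⟩ := Finset.mem_image.1 hg
        rw [MvPolynomial.eval_rename]
        have h1 : (fun j => Sum.elim r y (e.symm j)) ∘ e = Sum.elim r y := by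
          funext s
          simp
        rw [h1]
        exact hy f hf
      · funext i
        simp [π]
    · rintro ⟨_, ⟨r, hr, rfl⟩, rfl⟩
      refine ⟨fun i => r (e (Sum.inl i)), (hF _).2 ⟨fun k => r (e (Sum.inr k)), fun f hf => ?_⟩,
        rfl⟩
      have h1 := hr _ (Finset.mem_image_of_mem _ hf)
      rw [MvPolynomial.eval_rename] at h1
      rw [← h1]
      congr 2
      funext s
      rcases s with s | s <;> rfl
  have hcl : closure (rl D) = closure (π '' C) := by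
    rw [hrl]
    apply Subset.antisymm
    · exact closure_mono (image_mono subset_closure)
    · exact closure_minimal (image_closure_subset_closure_image hπ) isClosed_closure
  rw [hcl]
  refine SA.closure ?_
  refine SAP.congr (SAP.exists_fun (Fin (Fintype.card (ι ⊕ κ))) ι (fun w =>
    (fun i => w (Sum.inl i)) ∈ C ∧ ∀ i, w (Sum.inl (e (Sum.inl i))) = w (Sum.inr i)) ?_)
    fun v => ?_
  · exact (SAP.preimage (p := fun v => v ∈ C) (hQ _ G) (fun i => PF.coord _)).and
      (SAP.forall_fin fun i => SAP.eq (PF.coord _) (PF.coord _))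
  · constructor
    · rintro ⟨z, hz, rfl⟩
      exact ⟨z, hz, fun i => rfl⟩
    · rintro ⟨z, hz, h⟩
      exact ⟨z, hz, funext h⟩

/-- closures of Diophantine sets intersected with semialgebraic sets -/
theorem closure_dio_inter
    (hQ : ∀ (n : ℕ) (F : Finset (MvPolynomial (Fin n) ℚ)), SA (closure (rl (Zq F))))
    [Finite ι] {D : Set (ι → ℚ)} (hD : Dio D) {A : Set (ι → ℝ)} (hA : SA A) :
    SA (closure (rl D ∩ A)) := by
  classical
  obtain ⟨Q, hQ'⟩ := hA
  let T := {τ : {q // q ∈ Q} → SignType // ∃ x ∈ A, ∀ q, SignType.sign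
    (MvPolynomial.aeval x q.1 : ℝ) = τ q}
  let E : T → Set (ι → ℚ) := fun τ => D ∩ {x | ∀ q : {q // q ∈ Q},
    x ∈ {x : ι → ℚ | SignType.sign (MvPolynomial.eval x q.1) = τ.1 q}}
  have hE : ∀ τ, Dio (E τ) := fun τ => hD.inter (Dio.forall_fin fun q => Dio.sign q.1 (τ.1 q))
  have hU : rl D ∩ A = ⋃ τ : T, rl (E τ) := by
    ext x
    simp only [mem_iUnion]
    constructor
    · rintro ⟨⟨r, hr, rfl⟩, hA⟩
      refine ⟨⟨fun q => SignType.sign (MvPolynomial.aeval (fun i => (r i : ℝ)) q.1 : ℝ), _, hA,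
        fun q => rfl⟩, r, ⟨hr, fun q => ?_⟩, rfl⟩
      change SignType.sign (MvPolynomial.eval r q.1) = SignType.sign _
      rw [aeval_cast, sign_cast]
    · rintro ⟨τ, r, ⟨hr, hr2⟩, rfl⟩
      refine ⟨⟨r, hr, rfl⟩, ?_⟩
      obtain ⟨y, hy, hy2⟩ := τ.2
      refine hQ' y _ (fun q hq => ?_) hy
      rw [hy2 ⟨q, hq⟩, aeval_cast, sign_cast]
      exact (hr2 ⟨q, hq⟩).symm
  rw [hU, closure_iUnion_of_finite]
  refine SAP.congr (SAP.exists_fin fun τ : T => closure_dio hQ (hE τ)) fun x => ?_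
  exact mem_iUnion

end Pool.Agent.Q10.MZ
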