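import Pool.Agent.Q10.MZ.Alg
import Pool.Agent.Q10.MZ.Dio

/-!
# Distance functions, real coefficients, infima
-/

set_option autoImplicit false
set_option linter.unusedSectionVars false

namespace Pool.Agent.Q10.MZ

open Set Filter Topology Pool.Agent.H581R2 Pool.Agent.TH729.SQ

/-! ### the graph of the distance function -/

section graph

variable {κ : Type} [Finite κ] {n : ℕ}

/-- the distance is smaller than `t` -/
def Lt (S : Set (κ ⊕ Fin n → ℝ)) (w : κ ⊕ Option (Fin n) → ℝ) (t : ℝ) : Prop :=
  ∃ y : Fin n → ℝ, Sum.elim (fun k => w (Sum.inl k)) y ∈ S ∧ 0 < t ∧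
    ∀ i, w (Sum.inr (some i)) - y i < t ∧ y i - w (Sum.inr (some i)) < t

lemma SAP_Lt {S : Set (κ ⊕ Fin n → ℝ)} (hS : SA S) :
    SAP (fun w : Option (κ ⊕ Option (Fin n)) → ℝ => Lt S (fun i => w (some i)) (w none)) := by
  refine SAP.congr (SAP.exists_fun (Fin n) (Option (κ ⊕ Option (Fin n))) (fun u =>
    Sum.elim (fun k => u (Sum.inr (some (Sum.inl k)))) (fun i => u (Sum.inl i)) ∈ S ∧
      0 < u (Sum.inr none) ∧ ∀ i, u (Sum.inr (some (Sum.inr (some i)))) - u (Sum.inl i) <
        u (Sum.inr none) ∧ u (Sum.inl i) - u (Sum.inr (some (Sum.inr (some i)))) <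
        u (Sum.inr none)) ?_) fun w => Iff.rfl
  refine SAP.and ?_ (SAP.and (SAP.pos (PF.coord _)) (SAP.forall_fin fun i =>
    (SAP.lt ((PF.coord _).sub (PF.coord _)) (PF.coord _)).and
      (SAP.lt ((PF.coord _).sub (PF.coord _)) (PF.coord _))))
  refine SAP.preimage (p := fun v => v ∈ S) hS (fun s => ?_)
  rcases s with k | i
  · exact PF.coord _
  · exact PF.coord _

/-- the graph, with parameters -/
def Gam (S : Set (κ ⊕ Fin n → ℝ)) : Set (κ ⊕ Option (Fin n) → ℝ) :=
  {w | ¬ Lt S w (w (Sum.inr none)) ∧ ∀ t, w (Sum.inr none) < t → Lt S w t}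

lemma SA_Gam {S : Set (κ ⊕ Fin n → ℝ)} (hS : SA S) : SA (Gam S) := by
  refine SAP.and (SAP.not ?_) ?_
  · exact SAP.preimage (φ := fun (w : κ ⊕ Option (Fin n) → ℝ) (o : Option (κ ⊕ Option (Fin n))) =>
      o.elim (w (Sum.inr none)) w) (SAP_Lt hS) (fun o => by
        cases o with
        | none => exact PF.coord _
        | some i => exact PF.coord _)
  · refine SAP.forall' (p := fun (w : κ ⊕ Option (Fin n) → ℝ) t =>
      w (Sum.inr none) < t → Lt S w t) ?_
    exact (SAP.lt (PF.coord _) (PF.coord _)).imp (SAP_Lt hS)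

lemma mem_Gam {S : Set (κ ⊕ Fin n → ℝ)} {p : κ → ℝ} {C : Set (Fin n → ℝ)} (hC : C.Nonempty)
    (h : ∀ v, v ∈ C ↔ Sum.elim p v ∈ S) (v : Option (Fin n) → ℝ) :
    Sum.elim p v ∈ Gam S ↔ v none = Metric.infDist (fun i => v (some i)) C := by
  have key : ∀ t, Lt S (Sum.elim p v) t ↔ Metric.infDist (fun i => v (some i)) C < t := by
    intro t
    rw [Metric.infDist_lt_iff hC]
    constructor
    · rintro ⟨y, hy, ht, hi⟩
      refine ⟨y, (h y).2 hy, ?_⟩
      rw [dist_pi_lt_iff ht]
      intro i
      rw [Real.dist_eq, abs_lt]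
      have := hi i
      simp only [Sum.elim_inr] at this
      constructor <;> linarith [this.1, this.2]
    · rintro ⟨y, hy, hd⟩
      have ht : 0 < t := dist_nonneg.trans_lt hd
      refine ⟨y, (h y).1 hy, ht, fun i => ?_⟩
      rw [dist_pi_lt_iff ht] at hd
      have := hd i
      rw [Real.dist_eq, abs_lt] at this
      simp only [Sum.elim_inr]
      constructor <;> linarith [this.1, this.2]
  change (¬ Lt S (Sum.elim p v) (v none) ∧ ∀ t, v none < t → Lt S (Sum.elim p v) t) ↔ _
  constructor
  · rintro ⟨h1, h2⟩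
    rw [key] at h1
    refine le_antisymm (not_lt.1 h1) ?_
    refine le_of_forall_gt_imp_ge_of_dense fun t ht => ?_
    exact ((key t).1 (h2 t ht)).le
  · intro h1
    refine ⟨?_, fun t ht => ?_⟩
    · rw [key, h1]
      exact lt_irrefl _
    · rw [key, ← h1]
      exact ht

/-- a graph which is a fibre of a semialgebraic set satisfies an equation -/
theorem exists_poly {G : Set (κ ⊕ Option (Fin n) → ℝ)} (hG : SA G) {p : κ → ℝ}
    {f : (Fin n → ℝ) → ℝ} (h : ∀ v, Sum.elim p v ∈ G ↔ v none = f (fun i => v (some i))) :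
    ∃ P : MvPolynomial (Option (Fin n)) ℝ, P ≠ 0 ∧
      ∀ x, MvPolynomial.eval (ext (f x) x) P = 0 := by
  classical
  obtain ⟨m, P, Q, hPQ⟩ := semialgebraic_of_SA hG
  let R : MvPolynomial (κ ⊕ Option (Fin n)) ℚ → MvPolynomial (Option (Fin n)) ℝ := fun q =>
    MvPolynomial.aeval (Sum.elim (fun k => MvPolynomial.C (p k)) (fun o => MvPolynomial.X o)) q
  have hR : ∀ (v : Option (Fin n) → ℝ) q, MvPolynomial.eval v (R q) =
      MvPolynomial.aeval (Sum.elim p v) q := by
    intro v q
    induction q using MvPolynomial.induction_on with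
    | C a =>
      simp only [R, MvPolynomial.aeval_C]
      exact congrArg (fun φ : ℚ →+* ℝ => φ a) (Subsingleton.elim
        ((MvPolynomial.eval v).comp (algebraMap ℚ (MvPolynomial (Option (Fin n)) ℝ)))
        (algebraMap ℚ ℝ))
    | add q q' hq hq' =>
      simp only [R, map_add] at hq hq' ⊢
      rw [hq, hq']
    | mul_X q i hq =>
      simp only [R, map_mul, MvPolynomial.aeval_X] at hq ⊢
      rw [hq]
      rcases i with i | i <;> simp
  refine ⟨∏ j ∈ Finset.univ.filter (fun j => R (P j) ≠ 0), R (P j), ?_, fun x => ?_⟩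
  · exact Finset.prod_ne_zero_iff.2 fun j hj => (Finset.mem_filter.1 hj).2
  · have hx : Sum.elim p (ext (f x) x) ∈ G := (h _).2 rfl
    have hx' := hx
    rw [hPQ] at hx'
    obtain ⟨j, hj1, hj2⟩ := hx'
    have hne : R (P j) ≠ 0 := by
      intro h0
      -- the piece is open
      have hc : Continuous fun s : ℝ => Sum.elim p (ext s x) := by
        refine continuous_pi fun o => ?_
        rcases o with o | o
        · exact continuous_const
        · cases o with
          | none => exact continuous_id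
          | some i => exact continuous_const
      have h1 : ∀ᶠ s in 𝓝 (f x), ∀ g ∈ Q j, (0 : ℝ) < MvPolynomial.aeval
          (Sum.elim p (ext s x)) g := by
        rw [Filter.eventually_all_finset]
        intro g hg
        have hgc : Continuous fun s : ℝ => (MvPolynomial.aeval (Sum.elim p (ext s x)) g : ℝ) := by
          have h3 : ∀ g : MvPolynomial (κ ⊕ Option (Fin n)) ℚ,
              Continuous fun w : κ ⊕ Option (Fin n) → ℝ => (MvPolynomial.aeval w g : ℝ) := by
            intro g
            induction g using MvPolynomial.induction_on with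
            | C a => simpa using continuous_const
            | add p q hp hq =>
              simp only [map_add]
              exact Continuous.add hp hq
            | mul_X p i hp =>
              simp only [map_mul, MvPolynomial.aeval_X]
              exact Continuous.mul hp (continuous_apply i)
          exact (h3 g).comp hc
        exact hgc.continuousAt.eventually_const_lt (hj2 g hg)
      have h2 : ∀ᶠ s in 𝓝 (f x), s = f x := by
        filter_upwards [h1] with s hs
        have h4 : Sum.elim p (ext s x) ∈ G := by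
          rw [hPQ]
          refine ⟨j, ?_, hs⟩
          rw [← hR, h0, map_zero]
        exact (h _).1 h4
      obtain ⟨ε, hε, hball⟩ := Metric.eventually_nhds_iff.1 h2
      have h5 := @hball (f x + ε / 2) (by
        rw [Real.dist_eq, add_sub_cancel_left, abs_of_pos (by linarith)]
        linarith)
      linarith
    rw [map_prod]
    refine Finset.prod_eq_zero (Finset.mem_filter.2 ⟨Finset.mem_univ j, hne⟩) ?_
    rw [hR]
    exact hj1

end graph

/-! ### real coefficients -/

/-- finite unions of sets `{p = 0, q₁ > 0, …}` with real coefficients -/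
def SemialgebraicR {n : ℕ} (S : Set (Fin n → ℝ)) : Prop :=
  ∃ (m : ℕ) (P : Fin m → MvPolynomial (Fin n) ℝ) (G : Fin m → Finset (MvPolynomial (Fin n) ℝ)),
    S = {x : Fin n → ℝ | ∃ j : Fin m, MvPolynomial.eval x (P j) = 0 ∧
      ∀ g ∈ G j, 0 < MvPolynomial.eval x g}

/-- real coefficients as parameters -/
theorem exists_param {n : ℕ} {S : Set (Fin n → ℝ)} (h : SemialgebraicR S) :
    ∃ (κ : Type) (_ : Finite κ) (p : κ → ℝ) (T : Set (κ ⊕ Fin n → ℝ)), SA T ∧
      ∀ v, v ∈ S ↔ Sum.elim p v ∈ T := by
  classical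
  obtain ⟨m, P, G, rfl⟩ := h
  let J := Σ j : Fin m, Option {g // g ∈ G j}
  let f : J → MvPolynomial (Fin n) ℝ := fun a => a.2.elim (P a.1) (fun g => g.1)
  let κ := Σ a : J, {m // m ∈ (f a).support}
  let N : J → (κ ⊕ Fin n → ℝ) → ℝ := fun a w => ∑ m : {m // m ∈ (f a).support},
    w (Sum.inl ⟨a, m⟩) * ∏ i, w (Sum.inr i) ^ m.1 i
  have hN : ∀ a, PF (N a) := by
    intro a
    refine ⟨∑ m : {m // m ∈ (f a).support}, MvPolynomial.X (Sum.inl ⟨a, m⟩) *
      ∏ i, MvPolynomial.X (Sum.inr i) ^ m.1 i, fun v => ?_⟩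
    simp only [map_sum, map_mul, map_prod, map_pow, MvPolynomial.aeval_X]
    rfl
  have hNv : ∀ a (v : Fin n → ℝ), N a (Sum.elim (fun s : κ => (f s.1).coeff s.2.1) v) =
      MvPolynomial.eval v (f a) := by
    intro a v
    rw [MvPolynomial.eval_eq', ← Finset.sum_coe_sort (f a).support]
    rfl
  refine ⟨κ, inferInstance, fun s => (f s.1).coeff s.2.1,
    {w | ∃ j : Fin m, N ⟨j, none⟩ w = 0 ∧ ∀ g : {g // g ∈ G j}, 0 < N ⟨j, some g⟩ w}, ?_,
    fun v => ?_⟩
  · exact SAP.exists_fin fun j => (SAP.eq_zero (hN _)).and (SAP.forall_fin fun g => SAP.pos (hN _))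
  · refine exists_congr fun j => ?_
    rw [hNv]
    refine and_congr Iff.rfl ?_
    constructor
    · rintro h g
      rw [hNv]
      exact h g.1 g.2
    · intro h g hg
      have := h ⟨g, hg⟩
      rwa [hNv] at this

/-- the distance function of a semialgebraic set (with real coefficients) is algebraic -/
theorem dist_poly {n : ℕ} {C : Set (Fin n → ℝ)} (hC : C.Nonempty) (h : SemialgebraicR C) :
    ∃ P : MvPolynomial (Option (Fin n)) ℝ, P ≠ 0 ∧
      ∀ x, MvPolynomial.eval (ext (Metric.infDist x C) x) P = 0 := by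
  obtain ⟨κ, hκ, p, T, hT, hTC⟩ := exists_param h
  exact exists_poly (SA_Gam hT) (fun v => mem_Gam hC hTC v)

/-- closed sets with algebraic distance function, with algebraic values at rational points -/
theorem SA_of_dist {n : ℕ} {C : Set (Fin n → ℝ)} (hCc : IsClosed C) (hC : C.Nonempty)
    {P : MvPolynomial (Option (Fin n)) ℝ} (hP : P ≠ 0)
    (hPf : ∀ x, MvPolynomial.eval (ext (Metric.infDist x C) x) P = 0)
    (halg : ∀ r : Fin n → ℚ, IsAlgebraic ℚ (Metric.infDist (fun i => (r i : ℝ)) C)) : SA C := by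
  have h1 := graph_SA (Metric.continuous_infDist_pt C) hP hPf halg
  have h2 := SA.preimage (φ := fun (x : Fin n → ℝ) => ext 0 x) h1 (fun o => by
    cases o with
    | none => exact PF.zero
    | some i => exact PF.coord i)
  refine SAP.congr (q := fun x => x ∈ C) h2 fun x => ?_
  rw [hCc.mem_iff_infDist_zero hC]
  exact eq_comm

/-- points which are semialgebraic over `ℚ` are algebraic -/
theorem algebraic_of_SA {a : ℝ} (h : SA ({fun _ => a} : Set (Unit → ℝ))) : IsAlgebraic ℚ a := by
  classical
  obtain ⟨m, P, Q, hPQ⟩ := semialgebraic_of_SA h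
  have hx : (fun _ : Unit => a) ∈ ({fun _ => a} : Set (Unit → ℝ)) := rfl
  have hx' := hx
  rw [hPQ] at hx'
  obtain ⟨j, hj1, hj2⟩ := hx'
  by_cases h0 : P j = 0
  · exfalso
    have hc : Continuous fun s : ℝ => (fun _ : Unit => s) := continuous_pi fun _ => continuous_id
    have h1 : ∀ᶠ s in 𝓝 a, ∀ g ∈ Q j, (0 : ℝ) < MvPolynomial.aeval (fun _ : Unit => s) g := by
      rw [Filter.eventually_all_finset]
      intro g hg
      have hgc : Continuous fun s : ℝ => (MvPolynomial.aeval (fun _ : Unit => s) g : ℝ) :=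
        (continuous_aeval g).comp hc
      exact hgc.continuousAt.eventually_const_lt (hj2 g hg)
    have h2 : ∀ᶠ s in 𝓝 a, s = a := by
      filter_upwards [h1] with s hs
      have h4 : (fun _ : Unit => s) ∈ ({fun _ => a} : Set (Unit → ℝ)) := by
        rw [hPQ]
        refine ⟨j, ?_, hs⟩
        rw [h0, map_zero]
      exact congrFun h4 ()
    obtain ⟨ε, hε, hball⟩ := Metric.eventually_nhds_iff.1 h2
    have h5 := @hball (a + ε / 2) (by
      rw [Real.dist_eq, add_sub_cancel_left, abs_of_pos (by linarith)]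
      linarith)
    linarith
  · have key : ∀ {A : Type} [CommRing A] [Algebra ℚ A] (s : A) (q : MvPolynomial Unit ℚ),
        Polynomial.aeval s (MvPolynomial.aeval (fun _ => Polynomial.X) q : Polynomial ℚ) =
          MvPolynomial.aeval (fun _ => s) q := by
      intro A _ _ s q
      induction q using MvPolynomial.induction_on with
      | C a => simp
      | add p q hp hq => simp [hp, hq]
      | mul_X p i hp => simp [hp]
    refine ⟨MvPolynomial.aeval (fun _ => Polynomial.X) (P j), ?_, ?_⟩
    · intro h1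
      apply h0
      refine MvPolynomial.funext fun v => ?_
      have h2 := key (v ()) (P j)
      rw [h1, map_zero] at h2
      rw [map_zero, ← MvPolynomial.coe_aeval_eq_eval]
      exact h2.symm
    · rw [key]
      exact hj1

end Pool.Agent.Q10.MZ
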