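import Pool.Agent.Q10.MZ.Cpt

/-!
# Q1 and the generic form of Mazur's original conjecture
-/

set_option autoImplicit false

namespace Pool.Agent.Q10.MZ

open Set Filter Topology Pool.Agent.H581R2 Pool.Agent.TH729.SQ

/-- rational points of a closed subset -/
def Zi {ι : Type} (I : Ideal (MvPolynomial ι ℚ)) : Set (ι → ℚ) :=
  {x | ∀ f ∈ I, MvPolynomial.eval x f = 0}

/-- real points of a closed subset -/
def Zr {ι : Type} (I : Ideal (MvPolynomial ι ℚ)) : Set (ι → ℝ) :=
  {x | ∀ f ∈ I, (MvPolynomial.aeval x f : ℝ) = 0}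

/-- outside of a proper closed subset `h = 0` the closure of the rational points is open in the
real points -/
def GenOpen {ι : Type} (I : Ideal (MvPolynomial ι ℚ)) : Prop :=
  ∃ h ∉ I, ∀ x ∈ closure (rl (Zi I)), (MvPolynomial.aeval x h : ℝ) ≠ 0 →
    ∀ᶠ y in 𝓝 x, y ∈ Zr I → y ∈ closure (rl (Zi I))

lemma isClosed_Zr {n : ℕ} (I : Ideal (MvPolynomial (Fin n) ℚ)) : IsClosed (Zr I) := by
  have h1 : Zr I = ⋂ f ∈ I, {x | (MvPolynomial.aeval x f : ℝ) = 0} := by
    ext x
    simp [Zr]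
  rw [h1]
  exact isClosed_biInter fun f _ => isClosed_eq (continuous_aeval f) continuous_const

lemma rl_Zi_subset {n : ℕ} (I : Ideal (MvPolynomial (Fin n) ℚ)) : rl (Zi I) ⊆ Zr I := by
  rintro _ ⟨r, hr, rfl⟩ f hf
  rw [aeval_cast, hr f hf, Rat.cast_zero]

lemma Zi_span {n : ℕ} (F : Finset (MvPolynomial (Fin n) ℚ)) :
    Zi (Ideal.span (F : Set (MvPolynomial (Fin n) ℚ))) = Zq F := by
  ext x
  constructor
  · intro hx f hf
    exact hx f (Ideal.subset_span hf)
  · intro hx f hf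
    have h1 : Ideal.span (F : Set (MvPolynomial (Fin n) ℚ)) ≤
        RingHom.ker (MvPolynomial.eval x) := Ideal.span_le.2 fun g hg => hx g hg
    exact h1 hf

lemma Zr_span {n : ℕ} (F : Finset (MvPolynomial (Fin n) ℚ)) :
    Zr (Ideal.span (F : Set (MvPolynomial (Fin n) ℚ))) =
      {x | ∀ f ∈ F, (MvPolynomial.aeval x f : ℝ) = 0} := by
  ext x
  constructor
  · intro hx f hf
    exact hx f (Ideal.subset_span hf)
  · intro hx f hf
    have h1 : Ideal.span (F : Set (MvPolynomial (Fin n) ℚ)) ≤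
        RingHom.ker (MvPolynomial.aeval x : MvPolynomial (Fin n) ℚ →ₐ[ℚ] ℝ) :=
      Ideal.span_le.2 fun g hg => hx g hg
    exact h1 hf

lemma SA_Zr {n : ℕ} (I : Ideal (MvPolynomial (Fin n) ℚ)) : SA (Zr I) := by
  obtain ⟨F, hF⟩ := (inferInstance : IsNoetherian _ _).noetherian I
  rw [← hF, Zr_span]
  exact SAP.forall_mem F fun f _ => SAP.eq_zero (PF.aeval f)

/-- semialgebraic closures are generically open -/
theorem gen_of_SA {n : ℕ} (I : Ideal (MvPolynomial (Fin n) ℚ)) [hI : I.IsPrime]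
    (h : SA (closure (rl (Zi I)))) : GenOpen I := by
  classical
  obtain ⟨m, P, G, hPG⟩ := semialgebraic_of_SA h
  refine ⟨∏ j ∈ Finset.univ.filter (fun j => P j ∉ I), P j, ?_, fun x hx hx0 => ?_⟩
  · intro hmem
    obtain ⟨j, hj, hj2⟩ := hI.prod_mem_iff.1 hmem
    exact (Finset.mem_filter.1 hj).2 hj2
  · rw [hPG] at hx
    obtain ⟨j, hj1, hj2⟩ := hx
    have hjI : P j ∈ I := by
      by_contra hno
      apply hx0
      rw [map_prod]
      exact Finset.prod_eq_zero (Finset.mem_filter.2 ⟨Finset.mem_univ j, hno⟩) hj1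
    have h1 : ∀ᶠ y in 𝓝 x, ∀ g ∈ G j, (0 : ℝ) < MvPolynomial.aeval y g := by
      rw [Filter.eventually_all_finset]
      intro g hg
      exact (continuous_aeval g).continuousAt.eventually_const_lt (hj2 g hg)
    filter_upwards [h1] with y hy hyI
    rw [hPG]
    exact ⟨j, hyI _ hjI, hy⟩

/-- one step of the induction -/
theorem step {n : ℕ} (I : Ideal (MvPolynomial (Fin n) ℚ)) (hgen : I.IsPrime → GenOpen I)
    (ih : ∀ J : Ideal (MvPolynomial (Fin n) ℚ), I < J → SA (closure (rl (Zi J)))) :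
    SA (closure (rl (Zi I))) := by
  classical
  have hsup : ∀ (a : MvPolynomial (Fin n) ℚ) (x : Fin n → ℚ),
      x ∈ Zi (I ⊔ Ideal.span {a}) ↔ x ∈ Zi I ∧ MvPolynomial.eval x a = 0 := by
    intro a x
    constructor
    · intro hx
      exact ⟨fun f hf => hx f (Ideal.mem_sup_left hf),
        hx a (Ideal.mem_sup_right (Ideal.subset_span rfl))⟩
    · rintro ⟨hx, hxa⟩
      have h1 : I ⊔ Ideal.span {a} ≤ RingHom.ker (MvPolynomial.eval x) := by
        refine sup_le (fun f hf => hx f hf) (Ideal.span_le.2 ?_)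
        rintro _ rfl
        exact hxa
      exact fun f hf => h1 hf
  have hlt : ∀ a ∉ I, I < I ⊔ Ideal.span {a} := by
    intro a ha
    refine lt_of_le_of_ne le_sup_left fun h => ha ?_
    rw [h]
    exact Ideal.mem_sup_right (Ideal.subset_span rfl)
  by_cases htop : I = ⊤
  · have h1 : rl (Zi I) = ∅ := by
      rw [eq_empty_iff_forall_notMem]
      rintro _ ⟨r, hr, rfl⟩
      have := hr 1 (by rw [htop]; trivial)
      rw [map_one] at this
      exact one_ne_zero this
    rw [h1, closure_empty]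
    exact SA.empty
  by_cases hp : I.IsPrime
  · obtain ⟨h, hh, hopen⟩ := hgen hp
    set C := closure (rl (Zi I)) with hC
    set V : Set (Fin n → ℝ) := Zr I ∩ {x | (MvPolynomial.aeval x h : ℝ) ≠ 0} with hV
    have hVs : SA V := (SA_Zr I).inter (SAP.eq_zero (PF.aeval h)).not
    have hCsub : C ⊆ Zr I := closure_minimal (rl_Zi_subset I) (isClosed_Zr I)
    have hW : SA (C ∩ {x | (MvPolynomial.aeval x h : ℝ) ≠ 0}) := by
      refine sa_of_lc (Fin n) V _ hVs ?_ ?_
      · rintro x ⟨hx1, hx2⟩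
        exact ⟨hCsub hx1, hx2⟩
      · intro x hx
        by_cases hxC : x ∈ C
        · have h1 : ∀ᶠ y in 𝓝[V] x, y ∈ Zr I → y ∈ C :=
            nhdsWithin_le_nhds (hopen x hxC hx.2)
          filter_upwards [h1, self_mem_nhdsWithin] with y hy hyV
          exact ⟨fun _ => ⟨hxC, hx.2⟩, fun _ => ⟨hy hyV.1, hyV.2⟩⟩
        · have h1 : Cᶜ ∈ 𝓝 x := isClosed_closure.isOpen_compl.mem_nhds hxC
          filter_upwards [nhdsWithin_le_nhds h1] with y hy
          exact ⟨fun h => absurd h.1 hy, fun h => absurd h.1 hxC⟩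
    have hcl : C = closure (C ∩ {x | (MvPolynomial.aeval x h : ℝ) ≠ 0}) ∪
        closure (rl (Zi (I ⊔ Ideal.span {h}))) := by
      apply Subset.antisymm
      · refine closure_minimal ?_ (isClosed_closure.union isClosed_closure)
        rintro _ ⟨r, hr, rfl⟩
        by_cases h0 : MvPolynomial.eval r h = 0
        · exact Or.inr (subset_closure ⟨r, (hsup h r).2 ⟨hr, h0⟩, rfl⟩)
        · refine Or.inl (subset_closure ⟨subset_closure ⟨r, hr, rfl⟩, ?_⟩)
          change (MvPolynomial.aeval (fun i => (r i : ℝ)) h : ℝ) ≠ 0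
          rw [aeval_cast]
          exact_mod_cast h0
      · refine union_subset (closure_minimal inter_subset_left isClosed_closure)
          (closure_mono ?_)
        rintro _ ⟨r, hr, rfl⟩
        exact ⟨r, ((hsup h r).1 hr).1, rfl⟩
    rw [hcl]
    exact (SA.closure hW).union (ih _ (hlt h hh))
  · obtain ⟨a, ha, b, hb, hab⟩ : ∃ a, a ∉ I ∧ ∃ b, b ∉ I ∧ a * b ∈ I := by
      by_contra hno
      push Not at hno
      refine hp ⟨htop, fun {a b} hab => ?_⟩
      by_contra hno2
      push Not at hno2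
      exact hno a hno2.1 b hno2.2 hab
    have h1 : rl (Zi I) = rl (Zi (I ⊔ Ideal.span {a})) ∪ rl (Zi (I ⊔ Ideal.span {b})) := by
      ext x
      constructor
      · rintro ⟨r, hr, rfl⟩
        have h2 := hr _ hab
        rw [map_mul, mul_eq_zero] at h2
        rcases h2 with h2 | h2
        · exact Or.inl ⟨r, (hsup a r).2 ⟨hr, h2⟩, rfl⟩
        · exact Or.inr ⟨r, (hsup b r).2 ⟨hr, h2⟩, rfl⟩
      · rintro (⟨r, hr, rfl⟩ | ⟨r, hr, rfl⟩)
        · exact ⟨r, ((hsup a r).1 hr).1, rfl⟩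
        · exact ⟨r, ((hsup b r).1 hr).1, rfl⟩
    rw [h1, closure_union]
    exact (ih _ (hlt a ha)).union (ih _ (hlt b hb))

/-- generic openness for the prime ideals containing `I` -/
theorem SA_of_gen {n : ℕ} (I : Ideal (MvPolynomial (Fin n) ℚ))
    (h : ∀ J : Ideal (MvPolynomial (Fin n) ℚ), I ≤ J → J.IsPrime → GenOpen J) :
    SA (closure (rl (Zi I))) := by
  have key : ∀ J : Ideal (MvPolynomial (Fin n) ℚ), I ≤ J → SA (closure (rl (Zi J))) := by
    intro J
    induction J using WellFoundedGT.induction with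
    | _ J ih =>
      intro hJ
      exact step J (h J hJ) fun J' hJ' => ih J' hJ' (hJ.trans hJ'.le)
  exact key I le_rfl

end Pool.Agent.Q10.MZ
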