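import Pool.Agent.Q10.MZ.Dist

/-!
# Infima of Diophantine sets
-/

set_option autoImplicit false

namespace Pool.Agent.Q10.MZ

open Set Filter Topology Pool.Agent.H581R2 Pool.Agent.TH729.SQ

/-- the infima of the Diophantine sets of rational numbers are algebraic -/
def InfAlg : Prop :=
  ∀ (m : ℕ) (F : Finset (MvPolynomial (Option (Fin m)) ℚ)) (a : ℝ),
    IsGLB {t : ℝ | ∃ (s : ℚ) (y : Fin m → ℚ),
      (∀ f ∈ F, MvPolynomial.eval (fun o : Option (Fin m) => o.elim s y) f = 0) ∧ t = s} a →
    IsAlgebraic ℚ a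

lemma Dio.to_option {α : Type} [Finite α] {D : Set (Option α → ℚ)} (hD : Dio D) :
    ∃ (m : ℕ) (F : Finset (MvPolynomial (Option (Fin m)) ℚ)), ∀ s : ℚ,
      (∃ c : α → ℚ, (fun o : Option α => o.elim s c) ∈ D) ↔
        ∃ y : Fin m → ℚ, ∀ f ∈ F,
          MvPolynomial.eval (fun o : Option (Fin m) => o.elim s y) f = 0 := by
  classical
  obtain ⟨κ, hκ, F, hF⟩ := hD
  have := Fintype.ofFinite α
  have := Fintype.ofFinite κ
  let e := Fintype.equivFin (α ⊕ κ)
  let ρ : Option α ⊕ κ → Option (Fin (Fintype.card (α ⊕ κ))) :=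
    Sum.elim (fun o => o.elim none (fun i => some (e (Sum.inl i)))) (fun k => some (e (Sum.inr k)))
  refine ⟨_, F.image (MvPolynomial.rename ρ), fun s => ?_⟩
  constructor
  · rintro ⟨c, hc⟩
    obtain ⟨z, hz⟩ := (hF _).1 hc
    refine ⟨fun j => Sum.elim c z (e.symm j), fun f hf => ?_⟩
    obtain ⟨g, hg, rfl⟩ := Finset.mem_image.1 hf
    rw [MvPolynomial.eval_rename]
    have h1 : (fun o : Option (Fin (Fintype.card (α ⊕ κ))) =>
        o.elim s fun j => Sum.elim c z (e.symm j)) ∘ ρ =
        Sum.elim (fun o : Option α => o.elim s c) z := by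
      funext t
      rcases t with (_ | i) | k
      · rfl
      · simp [ρ]
      · simp [ρ]
    rw [h1]
    exact hz g hg
  · rintro ⟨y, hy⟩
    refine ⟨fun i => y (e (Sum.inl i)), (hF _).2 ⟨fun k => y (e (Sum.inr k)), fun f hf => ?_⟩⟩
    have h2 := hy _ (Finset.mem_image_of_mem _ hf)
    rw [MvPolynomial.eval_rename] at h2
    rw [← h2]
    congr 2
    funext t
    rcases t with (_ | i) | k <;> rfl

/-- the distances from rational points -/
theorem alg_of_inf (hA : InfAlg) {n : ℕ} (F : Finset (MvPolynomial (Fin n) ℚ))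
    (hne : (Zq F).Nonempty) (r : Fin n → ℚ) :
    IsAlgebraic ℚ (Metric.infDist (fun i => (r i : ℝ)) (rl (Zq F))) := by
  classical
  have hD : Dio ({w : Option (Fin n) → ℚ | ∀ f : {f // f ∈ F}, w ∈ {w : Option (Fin n) → ℚ |
        MvPolynomial.eval w (MvPolynomial.rename some f.1) = 0}} ∩
      ({w | 0 < MvPolynomial.eval w (MvPolynomial.X none)} ∩
        {w | ∀ i : Fin n, w ∈ ({w | 0 < MvPolynomial.eval w (MvPolynomial.X none -
          (MvPolynomial.C (r i) - MvPolynomial.X (some i)))} ∩
          {w : Option (Fin n) → ℚ | 0 < MvPolynomial.eval w (MvPolynomial.X none -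
          (MvPolynomial.X (some i) - MvPolynomial.C (r i)))})})) :=
    (Dio.forall_fin fun f => Dio.zero _).inter ((Dio.pos _).inter
      (Dio.forall_fin fun i => (Dio.pos _).inter (Dio.pos _)))
  obtain ⟨m, G, hG⟩ := hD.to_option
  refine hA m G _ ?_
  have key : ∀ s : ℚ, (∃ y : Fin m → ℚ, ∀ f ∈ G,
      MvPolynomial.eval (fun o : Option (Fin m) => o.elim s y) f = 0) ↔
      Metric.infDist (fun i => (r i : ℝ)) (rl (Zq F)) < s := by
    intro s
    have hne' : (rl (Zq F)).Nonempty := by
      obtain ⟨c, hc⟩ := hne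
      exact ⟨_, c, hc, rfl⟩
    rw [← hG s, Metric.infDist_lt_iff hne']
    constructor
    · rintro ⟨c, hc1, hc2, hc3⟩
      have hs : 0 < s := by
        have h : (0 : ℚ) < MvPolynomial.eval (fun o : Option (Fin n) => o.elim s c)
          (MvPolynomial.X none) := hc2
        rwa [MvPolynomial.eval_X] at h
      refine ⟨fun i => (c i : ℝ), ⟨c, fun f hf => ?_, rfl⟩, ?_⟩
      · have h := hc1 ⟨f, hf⟩
        have h' : MvPolynomial.eval (fun o : Option (Fin n) => o.elim s c)
          (MvPolynomial.rename some f) = 0 := h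
        rw [MvPolynomial.eval_rename] at h'
        exact h'
      · rw [dist_pi_lt_iff (by exact_mod_cast hs)]
        intro i
        have h1 : (0 : ℚ) < MvPolynomial.eval (fun o : Option (Fin n) => o.elim s c)
          (MvPolynomial.X none - (MvPolynomial.C (r i) - MvPolynomial.X (some i))) := (hc3 i).1
        have h2 : (0 : ℚ) < MvPolynomial.eval (fun o : Option (Fin n) => o.elim s c)
          (MvPolynomial.X none - (MvPolynomial.X (some i) - MvPolynomial.C (r i))) := (hc3 i).2
        simp only [map_sub, MvPolynomial.eval_X, MvPolynomial.eval_C, Option.elim] at h1 h2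
        have h3 : |r i - c i| < s := by
          rw [abs_lt]
          constructor <;> linarith
        rw [Real.dist_eq]
        exact_mod_cast h3
    · rintro ⟨_, ⟨c, hc, rfl⟩, hd⟩
      have hs : (0 : ℝ) < s := dist_nonneg.trans_lt hd
      rw [dist_pi_lt_iff hs] at hd
      refine ⟨c, fun f => ?_, ?_, fun i => ⟨?_, ?_⟩⟩
      · change MvPolynomial.eval (fun o : Option (Fin n) => o.elim s c)
          (MvPolynomial.rename some f.1) = 0
        rw [MvPolynomial.eval_rename]
        exact hc f.1 f.2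
      · change (0 : ℚ) < MvPolynomial.eval (fun o : Option (Fin n) => o.elim s c)
          (MvPolynomial.X none)
        rw [MvPolynomial.eval_X]
        change (0 : ℚ) < s
        exact_mod_cast hs
      · have h3 : |r i - c i| < s := by
          have h := hd i
          rw [Real.dist_eq] at h
          exact_mod_cast h
        rw [abs_lt] at h3
        change (0 : ℚ) < MvPolynomial.eval (fun o : Option (Fin n) => o.elim s c)
          (MvPolynomial.X none - (MvPolynomial.C (r i) - MvPolynomial.X (some i)))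
        simp only [map_sub, MvPolynomial.eval_X, MvPolynomial.eval_C, Option.elim]
        linarith
      · have h3 : |r i - c i| < s := by
          have h := hd i
          rw [Real.dist_eq] at h
          exact_mod_cast h
        rw [abs_lt] at h3
        change (0 : ℚ) < MvPolynomial.eval (fun o : Option (Fin n) => o.elim s c)
          (MvPolynomial.X none - (MvPolynomial.X (some i) - MvPolynomial.C (r i)))
        simp only [map_sub, MvPolynomial.eval_X, MvPolynomial.eval_C, Option.elim]
        linarith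
  constructor
  · rintro t ⟨s, y, hy, rfl⟩
    exact ((key s).1 ⟨y, hy⟩).le
  · intro b hb
    by_contra hlt
    push Not at hlt
    obtain ⟨s, hs1, hs2⟩ := exists_rat_btwn hlt
    obtain ⟨y, hy⟩ := (key s).2 hs1
    have := hb ⟨s, y, hy, rfl⟩
    linarith

/-- under Q1 the infima are algebraic -/
theorem inf_of_Q1
    (hQ : ∀ (n : ℕ) (F : Finset (MvPolynomial (Fin n) ℚ)), SA (closure (rl (Zq F)))) :
    InfAlg := by
  classical
  intro m F a ha
  set D : Set (Unit → ℚ) := {v | ∃ y : Fin m → ℚ, ∀ f ∈ F,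
    MvPolynomial.eval (fun o : Option (Fin m) => o.elim (v ()) y) f = 0} with hD
  have hDio : Dio D := by
    refine ⟨Fin m, inferInstance, F.image (MvPolynomial.rename
      (fun o : Option (Fin m) => o.elim (Sum.inl ()) (fun i => Sum.inr i))), fun v => ?_⟩
    have h1 : ∀ y : Fin m → ℚ, (Sum.elim v y) ∘
        (fun o : Option (Fin m) => o.elim (Sum.inl ()) (fun i => Sum.inr i)) =
        fun o : Option (Fin m) => o.elim (v ()) y := by
      intro y
      funext o
      cases o <;> rfl
    constructor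
    · rintro ⟨y, hy⟩
      refine ⟨y, fun f hf => ?_⟩
      obtain ⟨g, hg, rfl⟩ := Finset.mem_image.1 hf
      rw [MvPolynomial.eval_rename, h1]
      exact hy g hg
    · rintro ⟨y, hy⟩
      refine ⟨y, fun f hf => ?_⟩
      have h2 := hy _ (Finset.mem_image_of_mem _ hf)
      rwa [MvPolynomial.eval_rename, h1] at h2
  have hC := closure_dio hQ hDio
  set C := closure (rl D) with hCdef
  have hlow : ∀ b : ℝ, (∀ t : ℝ, (fun _ : Unit => t) ∈ C → b ≤ t) ↔
      b ∈ lowerBounds {t : ℝ | ∃ (s : ℚ) (y : Fin m → ℚ),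
      (∀ f ∈ F, MvPolynomial.eval (fun o : Option (Fin m) => o.elim s y) f = 0) ∧ t = s} := by
    intro b
    constructor
    · rintro h t ⟨s, y, hy, rfl⟩
      exact h s (subset_closure ⟨fun _ => s, ⟨y, hy⟩, rfl⟩)
    · intro h t ht
      have h1 : C ⊆ {v : Unit → ℝ | b ≤ v ()} := by
        refine closure_minimal ?_ (isClosed_le continuous_const (continuous_apply _))
        rintro _ ⟨v, ⟨y, hy⟩, rfl⟩
        exact h ⟨v (), y, hy, rfl⟩
      exact h1 ht
  refine algebraic_of_SA ?_
  refine SAP.congr (p := fun v : Unit → ℝ => (∀ t : ℝ, (fun _ : Unit => t) ∈ C → v () ≤ t) ∧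
    ∀ b : ℝ, (∀ t : ℝ, (fun _ : Unit => t) ∈ C → b ≤ t) → b ≤ v ()) ?_ fun v => ?_
  · refine SAP.and ?_ ?_
    · refine SAP.forall' (p := fun (v : Unit → ℝ) t => (fun _ : Unit => t) ∈ C → v () ≤ t) ?_
      exact (SAP.preimage (p := fun v => v ∈ C) hC (fun _ => PF.coord _)).imp
        (SAP.le (PF.coord _) (PF.coord _))
    · refine SAP.forall' (p := fun (v : Unit → ℝ) b =>
        (∀ t : ℝ, (fun _ : Unit => t) ∈ C → b ≤ t) → b ≤ v ()) ?_
      refine SAP.imp ?_ (SAP.le (PF.coord _) (PF.coord _))
      refine SAP.forall' (p := fun (w : Option Unit → ℝ) t =>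
        (fun _ : Unit => t) ∈ C → w none ≤ t) ?_
      exact (SAP.preimage (p := fun v => v ∈ C) hC (fun _ => PF.coord _)).imp
        (SAP.le (PF.coord _) (PF.coord _))
  · constructor
    · intro hv
      have hv' : v () = a := congrFun hv ()
      refine ⟨?_, fun b hb => ?_⟩
      · rw [hlow, hv']
        exact ha.1
      · rw [hv']
        exact ha.2 ((hlow b).1 hb)
    · rintro ⟨h1, h2⟩
      have h3 : IsGLB {t : ℝ | ∃ (s : ℚ) (y : Fin m → ℚ),
          (∀ f ∈ F, MvPolynomial.eval (fun o : Option (Fin m) => o.elim s y) f = 0) ∧ t = s}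
          (v ()) := ⟨(hlow _).1 h1, fun b hb => h2 b ((hlow b).2 hb)⟩
      have h4 := h3.unique ha
      change v = fun _ => a
      funext u
      exact h4

end Pool.Agent.Q10.MZ
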