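import Mathlib

/-!
# Systems of polynomial equations and systems of quadratic equations
-/

set_option autoImplicit false

namespace Pool.Agent.Q10.MZ

open MvPolynomial

variable {n D : ℕ}

/-- exponents `≤ D` -/
abbrev Ex (n D : ℕ) : Type := Fin n → Fin (D + 1)

/-- one exponent less -/
def dn (m : Ex n D) (i : Fin n) : Ex n D :=
  Function.update m i ⟨(m i : ℕ) - 1, by omega⟩

/-- `y_m = x_i y_{m - e_i}` -/
noncomputable def relq (m : Ex n D) (i : Fin n) : MvPolynomial (Fin n ⊕ Ex n D) ℚ :=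
  X (Sum.inr m) - X (Sum.inl i) * X (Sum.inr (dn m i))

/-- the linear equation for `f` -/
noncomputable def lin (D : ℕ) (f : MvPolynomial (Fin n) ℚ) : MvPolynomial (Fin n ⊕ Ex n D) ℚ :=
  ∑ m ∈ f.support, C (coeff m f) * X (Sum.inr fun i => ⟨min (m i) D, by omega⟩)

/-- the system of quadratic equations -/
noncomputable def sys (D : ℕ) (F : Finset (MvPolynomial (Fin n) ℚ)) :
    Finset (MvPolynomial (Fin n ⊕ Ex n D) ℚ) := by
  classical
  exact {X (Sum.inr 0) - 1} ∪
    ((Finset.univ.filter fun p : Ex n D × Fin n => p.1 p.2 ≠ 0).image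
      (fun p => relq p.1 p.2) ∪ F.image (lin D))

lemma totalDegree_X_le {σ : Type} (s : σ) : (X s : MvPolynomial σ ℚ).totalDegree ≤ 1 :=
  (totalDegree_X s).le

lemma sys_deg (F : Finset (MvPolynomial (Fin n) ℚ)) :
    ∀ q ∈ sys D F, q.totalDegree ≤ 2 := by
  classical
  intro q hq
  unfold sys at hq
  rw [Finset.mem_union, Finset.mem_union, Finset.mem_singleton, Finset.mem_image,
    Finset.mem_image] at hq
  rcases hq with rfl | ⟨p, -, rfl⟩ | ⟨f, -, rfl⟩
  · refine (totalDegree_sub _ _).trans (max_le ((totalDegree_X_le _).trans (by norm_num)) ?_)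
    rw [totalDegree_one]
    norm_num
  · refine (totalDegree_sub _ _).trans (max_le ((totalDegree_X_le _).trans (by norm_num)) ?_)
    exact (totalDegree_mul _ _).trans (add_le_add (totalDegree_X_le _) (totalDegree_X_le _))
  · refine (totalDegree_finsetSum _ _).trans ?_
    refine Finset.sup_le fun m _ => ?_
    refine (totalDegree_mul _ _).trans ?_
    rw [totalDegree_C]
    exact (add_le_add le_rfl (totalDegree_X_le _)).trans (by norm_num)

lemma prod_dn (x : Fin n → ℚ) (m : Ex n D) (i : Fin n) (hi : m i ≠ 0) :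
    ∏ j, x j ^ (m j : ℕ) = x i * ∏ j, x j ^ (dn m i j : ℕ) := by
  classical
  rw [← Finset.mul_prod_erase _ _ (Finset.mem_univ i),
    ← Finset.mul_prod_erase Finset.univ (fun j => x j ^ (dn m i j : ℕ)) (Finset.mem_univ i)]
  have h1 : ∏ j ∈ Finset.univ.erase i, x j ^ (m j : ℕ) =
      ∏ j ∈ Finset.univ.erase i, x j ^ (dn m i j : ℕ) := by
    refine Finset.prod_congr rfl fun j hj => ?_
    have hj' : j ≠ i := Finset.ne_of_mem_erase hj
    rw [dn, Function.update_of_ne hj']
  have h2 : (dn m i i : ℕ) = (m i : ℕ) - 1 := by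
    rw [dn, Function.update_self]
  have h3 : (m i : ℕ) ≠ 0 := fun h => hi (Fin.ext h)
  rw [h1, h2, ← mul_assoc, ← pow_succ']
  congr 2
  omega

theorem sys_iff (F : Finset (MvPolynomial (Fin n) ℚ)) (hD : ∀ f ∈ F, f.totalDegree ≤ D)
    (x : Fin n → ℚ) (y : Ex n D → ℚ) :
    (∀ q ∈ sys D F, eval (Sum.elim x y) q = 0) ↔
      (∀ f ∈ F, eval x f = 0) ∧ ∀ m, y m = ∏ i, x i ^ (m i : ℕ) := by
  classical
  have hlin : (∀ m, y m = ∏ i, x i ^ (m i : ℕ)) → ∀ f ∈ F,
      eval (Sum.elim x y) (lin D f) = eval x f := by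
    intro hy f hf
    rw [lin, map_sum, eval_eq']
    refine Finset.sum_congr rfl fun m hm => ?_
    rw [map_mul, eval_C, eval_X, Sum.elim_inr, hy]
    congr 1
    refine Finset.prod_congr rfl fun i _ => ?_
    congr 1
    have h1 : m i ≤ f.totalDegree := by
      have h2 := le_totalDegree hm
      refine le_trans ?_ h2
      by_cases h0 : m i = 0
      · rw [h0]
        exact Nat.zero_le _
      · exact Finset.single_le_sum (f := fun i => m i) (fun _ _ => Nat.zero_le _)
          (Finsupp.mem_support_iff.2 h0)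
    exact min_eq_left (h1.trans (hD f hf))
  have hmem : ∀ q, q ∈ sys D F ↔ q = X (Sum.inr 0) - 1 ∨
      (∃ p : Ex n D × Fin n, p.1 p.2 ≠ 0 ∧ relq p.1 p.2 = q) ∨ ∃ f ∈ F, lin D f = q := by
    intro q
    unfold sys
    rw [Finset.mem_union, Finset.mem_union, Finset.mem_singleton, Finset.mem_image,
      Finset.mem_image]
    simp only [Finset.mem_filter, Finset.mem_univ, true_and]
  constructor
  · intro h
    have hy : ∀ (s : ℕ) (m : Ex n D), ∑ i, (m i : ℕ) = s → y m = ∏ i, x i ^ (m i : ℕ) := by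
      intro s
      induction s with
      | zero =>
        intro m hm
        have h0 : m = 0 := by
          funext i
          have := (Finset.sum_eq_zero_iff.1 hm) i (Finset.mem_univ i)
          exact Fin.ext this
        have h1 := h (X (Sum.inr 0) - 1) ((hmem _).2 (Or.inl rfl))
        rw [map_sub, eval_X, Sum.elim_inr, map_one, sub_eq_zero] at h1
        rw [h0, h1]
        simp
      | succ s ih =>
        intro m hm
        obtain ⟨i, hi⟩ : ∃ i, m i ≠ 0 := by
          by_contra hno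
          push Not at hno
          have : ∑ i, (m i : ℕ) = 0 := Finset.sum_eq_zero fun i _ => by rw [hno i]; rfl
          omega
        have h1 := h (relq m i) ((hmem _).2 (Or.inr (Or.inl ⟨(m, i), hi, rfl⟩)))
        rw [relq, map_sub, map_mul, eval_X, eval_X, eval_X, Sum.elim_inr, Sum.elim_inl,
          Sum.elim_inr, sub_eq_zero] at h1
        have h2 : ∑ j, (dn m i j : ℕ) = s := by
          rw [← Finset.add_sum_erase _ _ (Finset.mem_univ i)] at hm ⊢
          have h3 : ∑ j ∈ Finset.univ.erase i, (dn m i j : ℕ) =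
              ∑ j ∈ Finset.univ.erase i, (m j : ℕ) := by
            refine Finset.sum_congr rfl fun j hj => ?_
            have hj' : j ≠ i := Finset.ne_of_mem_erase hj
            rw [dn, Function.update_of_ne hj']
          have h4 : (dn m i i : ℕ) = (m i : ℕ) - 1 := by
            rw [dn, Function.update_self]
          have h5 : (m i : ℕ) ≠ 0 := fun h => hi (Fin.ext h)
          rw [h3, h4]
          omega
        rw [h1, ih _ h2, ← prod_dn x m i hi]
    have hy' : ∀ m, y m = ∏ i, x i ^ (m i : ℕ) := fun m => hy _ m rfl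
    refine ⟨fun f hf => ?_, hy'⟩
    rw [← hlin hy' f hf]
    exact h _ ((hmem _).2 (Or.inr (Or.inr ⟨f, hf, rfl⟩)))
  · rintro ⟨hF, hy⟩ q hq
    rcases (hmem q).1 hq with rfl | ⟨p, hp, rfl⟩ | ⟨f, hf, rfl⟩
    · rw [map_sub, eval_X, Sum.elim_inr, map_one, hy]
      simp
    · rw [relq, map_sub, map_mul, eval_X, eval_X, eval_X, Sum.elim_inr, Sum.elim_inl,
        Sum.elim_inr, hy, hy, prod_dn x p.1 p.2 hp, sub_self]
    · rw [hlin hy f hf]
      exact hF f hf

/-- the sum of squares -/
theorem sumsq {σ : Type} (T : Finset (MvPolynomial σ ℚ)) (hT : ∀ q ∈ T, q.totalDegree ≤ 2) :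
    (∑ q ∈ T, q ^ 2).totalDegree ≤ 4 ∧
      ∀ z : σ → ℚ, eval z (∑ q ∈ T, q ^ 2) = 0 ↔ ∀ q ∈ T, eval z q = 0 := by
  constructor
  · refine (totalDegree_finsetSum _ _).trans (Finset.sup_le fun q hq => ?_)
    refine (totalDegree_pow _ _).trans ?_
    have := hT q hq
    omega
  · intro z
    rw [map_sum, Finset.sum_eq_zero_iff_of_nonneg]
    · refine forall₂_congr fun q _ => ?_
      rw [map_pow]
      exact pow_eq_zero_iff two_ne_zero
    · intro q _
      rw [map_pow]
      positivity

end Pool.Agent.Q10.MZ
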