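import Pool.Agent.Q10.MZ.Base
import Pool.Agent.Q10.MZ.Quad

/-!
# The local form for quadrics and quartics implies the global form
-/

set_option autoImplicit false

namespace Pool.Agent.Q10.MZ

open Set Filter Topology Pool.Agent.H581R2 Pool.Agent.TH729.SQ

/-- the rational solutions -/
def Zq {ι : Type} (F : Finset (MvPolynomial ι ℚ)) : Set (ι → ℚ) :=
  {x | ∀ f ∈ F, MvPolynomial.eval x f = 0}

/-- a set which is semialgebraic over `ℚ` near `a` -/
def SAat {ι : Type} (C : Set (ι → ℝ)) (a : ι → ℝ) : Prop :=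
  ∃ S : Set (ι → ℝ), SA S ∧ ∀ᶠ x in 𝓝 a, (x ∈ C ↔ x ∈ S)

lemma closure_embed {X Y : Type} [TopologicalSpace X] [TopologicalSpace Y] {φ : X → Y}
    {π : Y → X} (hφ : Continuous φ) (hπ : Continuous π) (h : ∀ x, π (φ x) = x) (A : Set X)
    (x : X) : x ∈ closure A ↔ φ x ∈ closure (φ '' A) := by
  constructor
  · intro hx
    exact image_closure_subset_closure_image hφ ⟨x, hx, rfl⟩
  · intro hx
    have h1 := image_closure_subset_closure_image hπ ⟨_, hx, rfl⟩
    rw [h, ← image_comp] at h1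
    have h2 : π ∘ φ = id := funext h
    rwa [h2, image_id] at h1

/-! ### quadrics -/

/-- the map to the system of quadrics -/
def vm {n D N : ℕ} (e : Fin n ⊕ Ex n D ≃ Fin N) (x : Fin n → ℝ) : Fin N → ℝ := fun j =>
  Sum.elim x (fun m : Ex n D => ∏ i, x i ^ (m i : ℕ)) (e.symm j)

lemma vm_PF {n D N : ℕ} (e : Fin n ⊕ Ex n D ≃ Fin N) (j : Fin N) :
    PF (fun x => vm e x j) := by
  unfold vm
  rcases e.symm j with i | m
  · exact PF.coord i
  · refine ⟨∏ i, MvPolynomial.X i ^ (m i : ℕ), fun v => ?_⟩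
    simp

lemma vm_cont {n D N : ℕ} (e : Fin n ⊕ Ex n D ≃ Fin N) : Continuous (vm e) := by
  refine continuous_pi fun j => ?_
  unfold vm
  rcases e.symm j with i | m
  · exact continuous_apply i
  · exact continuous_finsetProd _ fun i _ => (continuous_apply i).pow _

lemma rl_vm {n D N : ℕ} (e : Fin n ⊕ Ex n D ≃ Fin N) (F : Finset (MvPolynomial (Fin n) ℚ))
    (hD : ∀ f ∈ F, f.totalDegree ≤ D) :
    rl (Zq ((sys D F).image (MvPolynomial.rename e))) = vm e '' rl (Zq F) := by
  ext z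
  constructor
  · rintro ⟨r, hr, rfl⟩
    have h1 : ∀ q ∈ sys D F, MvPolynomial.eval
        (Sum.elim (fun i => r (e (Sum.inl i))) (fun m => r (e (Sum.inr m)))) q = 0 := by
      intro q hq
      have h2 := hr _ (Finset.mem_image_of_mem _ hq)
      rw [MvPolynomial.eval_rename] at h2
      rw [← h2]
      congr 2
      funext s
      rcases s with s | s <;> rfl
    rw [sys_iff F hD] at h1
    refine ⟨fun i => (r (e (Sum.inl i)) : ℝ), ⟨fun i => r (e (Sum.inl i)), h1.1, rfl⟩, ?_⟩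
    funext j
    obtain ⟨s, rfl⟩ := e.surjective j
    unfold vm
    rw [e.symm_apply_apply]
    rcases s with s | s
    · rfl
    · rw [Sum.elim_inr, h1.2 s]
      push_cast
      rfl
  · rintro ⟨_, ⟨r, hr, rfl⟩, rfl⟩
    refine ⟨fun j => Sum.elim r (fun m : Ex n D => ∏ i, r i ^ (m i : ℕ)) (e.symm j), ?_, ?_⟩
    · intro q hq
      obtain ⟨q', hq', rfl⟩ := Finset.mem_image.1 hq
      rw [MvPolynomial.eval_rename]
      have h1 : (fun j => Sum.elim r (fun m : Ex n D => ∏ i, r i ^ (m i : ℕ)) (e.symm j)) ∘ e =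
          Sum.elim r (fun m : Ex n D => ∏ i, r i ^ (m i : ℕ)) := by
        funext s
        simp
      rw [h1]
      exact (sys_iff F hD r _).2 ⟨hr, fun _ => rfl⟩ q' hq'
    · funext j
      obtain ⟨s, rfl⟩ := e.surjective j
      unfold vm
      simp only [e.symm_apply_apply]
      rcases s with s | s
      · rfl
      · simp only [Sum.elim_inr]
        push_cast
        rfl

/-- from quadrics to all systems -/
theorem loc_of_quadrics
    (h : ∀ (n : ℕ) (T : Finset (MvPolynomial (Fin n) ℚ)), (∀ q ∈ T, q.totalDegree ≤ 2) →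
      ∀ a, SAat (closure (rl (Zq T))) a) :
    ∀ (n : ℕ) (F : Finset (MvPolynomial (Fin n) ℚ)) (a : Fin n → ℝ),
      SAat (closure (rl (Zq F))) a := by
  classical
  intro n F a
  obtain ⟨D, hD⟩ : ∃ D, ∀ f ∈ F, f.totalDegree ≤ D :=
    ⟨F.sup MvPolynomial.totalDegree, fun f hf => Finset.le_sup (f := MvPolynomial.totalDegree) hf⟩
  let e := Fintype.equivFin (Fin n ⊕ Ex n D)
  obtain ⟨S, hS, hev⟩ := h _ ((sys D F).image (MvPolynomial.rename e)) (by
    intro q hq
    obtain ⟨q', hq', rfl⟩ := Finset.mem_image.1 hq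
    exact (MvPolynomial.totalDegree_rename_le _ _).trans (sys_deg F q' hq')) (vm e a)
  refine ⟨vm e ⁻¹' S, SA.preimage hS (vm_PF e), ?_⟩
  have h1 := (vm_cont e).continuousAt.eventually hev
  filter_upwards [h1] with x hx
  rw [mem_preimage, ← hx, rl_vm e F hD]
  exact closure_embed (vm_cont e) (π := fun z i => z (e (Sum.inl i)))
    (continuous_pi fun i => continuous_apply _) (fun x => by
      funext i
      simp [vm]) _ x

/-- from quartics to quadrics -/
theorem quadrics_of_quartics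
    (h : ∀ (n : ℕ) (f : MvPolynomial (Fin n) ℚ), f.totalDegree ≤ 4 →
      ∀ a, SAat (closure (rl {x | MvPolynomial.eval x f = 0})) a) :
    ∀ (n : ℕ) (T : Finset (MvPolynomial (Fin n) ℚ)), (∀ q ∈ T, q.totalDegree ≤ 2) →
      ∀ a, SAat (closure (rl (Zq T))) a := by
  intro n T hT a
  have h1 := h n (∑ q ∈ T, q ^ 2) (sumsq T hT).1 a
  have h2 : {x : Fin n → ℚ | MvPolynomial.eval x (∑ q ∈ T, q ^ 2) = 0} = Zq T := by
    ext x
    exact (sumsq T hT).2 x
  rwa [h2] at h1

/-! ### charts at infinity -/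

/-- invert the coordinates in `I` -/
def th {k : Type} [Field k] {n : ℕ} (I : Finset (Fin n)) (x : Fin n → k) : Fin n → k :=
  fun i => if i ∈ I then (x i)⁻¹ else x i

lemma th_th {k : Type} [Field k] {n : ℕ} (I : Finset (Fin n)) (x : Fin n → k) :
    th I (th I x) = x := by
  funext i
  unfold th
  by_cases hi : i ∈ I
  · simp [hi]
  · simp [hi]

lemma exists_chart {n : ℕ} (I : Finset (Fin n)) (f : MvPolynomial (Fin n) ℚ) :
    ∃ (N : ℕ) (h : MvPolynomial (Fin n) ℚ), ∀ u : Fin n → ℚ, (∀ i ∈ I, u i ≠ 0) →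
      MvPolynomial.eval u h = (∏ i ∈ I, u i) ^ N * MvPolynomial.eval (th I u) f := by
  classical
  induction f using MvPolynomial.induction_on with
  | C a => exact ⟨0, MvPolynomial.C a, fun u _ => by simp⟩
  | add f g hf hg =>
    obtain ⟨N, h, hh⟩ := hf
    obtain ⟨M, k, hk⟩ := hg
    refine ⟨N + M, (∏ i ∈ I, MvPolynomial.X i) ^ M * h + (∏ i ∈ I, MvPolynomial.X i) ^ N * k,
      fun u hu => ?_⟩
    rw [map_add, map_mul, map_mul, map_pow, map_pow, map_prod, hh u hu, hk u hu, map_add]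
    simp only [MvPolynomial.eval_X]
    ring
  | mul_X f i hf =>
    obtain ⟨N, h, hh⟩ := hf
    by_cases hi : i ∈ I
    · refine ⟨N + 1, h * ∏ j ∈ I.erase i, MvPolynomial.X j, fun u hu => ?_⟩
      rw [map_mul, map_mul, hh u hu, map_prod, MvPolynomial.eval_X, pow_succ,
        ← Finset.mul_prod_erase I _ hi]
      simp only [MvPolynomial.eval_X]
      have h1 : th I u i = (u i)⁻¹ := by simp [th, hi]
      rw [h1]
      have h2 := hu i hi
      field_simp
    · refine ⟨N, h * MvPolynomial.X i, fun u hu => ?_⟩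
      rw [map_mul, map_mul, hh u hu, MvPolynomial.eval_X, MvPolynomial.eval_X]
      have h1 : th I u i = u i := by simp [th, hi]
      rw [h1]
      ring

lemma rl_cast_th {n : ℕ} (I : Finset (Fin n)) (r : Fin n → ℚ) :
    th I (fun i => (r i : ℝ)) = fun i => ((th I r i : ℚ) : ℝ) := by
  funext i
  unfold th
  split_ifs <;> simp

lemma closure_chart {n : ℕ} (I : Finset (Fin n)) (A B : Set (Fin n → ℚ))
    (hAB : ∀ u, (∀ i ∈ I, u i ≠ 0) → u ∈ A → th I u ∈ B) (x : Fin n → ℝ)
    (hx : ∀ i ∈ I, x i ≠ 0) (hxA : x ∈ closure (rl A)) : th I x ∈ closure (rl B) := by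
  have hW : {x : Fin n → ℝ | ∀ i ∈ I, x i ≠ 0} ∈ 𝓝 x := by
    have h1 : ∀ᶠ y in 𝓝 x, ∀ i ∈ I, y i ≠ 0 := by
      rw [Filter.eventually_all_finset]
      intro i hi
      exact (continuous_apply i).continuousAt.eventually_ne (hx i hi)
    exact h1
  have h2 : x ∈ closure (rl A ∩ {x : Fin n → ℝ | ∀ i ∈ I, x i ≠ 0}) := by
    rw [mem_closure_iff_nhds] at hxA ⊢
    intro t ht
    obtain ⟨z, hz1, hz2⟩ := hxA _ (inter_mem ht hW)
    exact ⟨z, hz1.1, hz2, hz1.2⟩
  have hc : ContinuousAt (th I : (Fin n → ℝ) → Fin n → ℝ) x := by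
    refine continuousAt_pi.2 fun i => ?_
    unfold th
    by_cases hi : i ∈ I
    · simp only [hi, if_true]
      exact (continuous_apply i).continuousAt.inv₀ (hx i hi)
    · simp only [hi, if_false]
      exact (continuous_apply i).continuousAt
  refine closure_mono ?_ (hc.continuousWithinAt.mem_closure_image h2)
  rintro _ ⟨y, ⟨⟨r, hr, rfl⟩, hy⟩, rfl⟩
  refine ⟨th I r, hAB r (fun i hi => ?_) hr, rl_cast_th I r⟩
  have h0 : ((r i : ℚ) : ℝ) ≠ 0 := hy i hi
  exact_mod_cast h0

/-- compactness -/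
lemma SA_cube {n : ℕ} {C : Set (Fin n → ℝ)} (h : ∀ a, SAat C a) :
    SAP (fun x : Fin n → ℝ => x ∈ C ∧ ∀ i, -1 ≤ x i ∧ x i ≤ 1) := by
  classical
  have hbox : ∀ a : Fin n → ℝ, ∃ (S : Set (Fin n → ℝ)) (p q : Fin n → ℚ), SA S ∧
      (∀ i, (p i : ℝ) < a i ∧ a i < q i) ∧
      ∀ x : Fin n → ℝ, (∀ i, (p i : ℝ) < x i ∧ x i < q i) → (x ∈ C ↔ x ∈ S) := by
    intro a
    obtain ⟨S, hS, hev⟩ := h a
    obtain ⟨ε, hε, hball⟩ := Metric.eventually_nhds_iff.1 hev
    have hp : ∀ i, ∃ p : ℚ, a i - ε < p ∧ (p : ℝ) < a i := fun i =>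
      exists_rat_btwn (by linarith)
    have hq : ∀ i, ∃ q : ℚ, a i < q ∧ (q : ℝ) < a i + ε := fun i =>
      exists_rat_btwn (by linarith)
    choose p hp1 hp2 using hp
    choose q hq1 hq2 using hq
    refine ⟨S, p, q, hS, fun i => ⟨hp2 i, hq1 i⟩, fun x hx => hball ?_⟩
    rw [dist_pi_lt_iff hε]
    intro i
    rw [Real.dist_eq, abs_lt]
    have h1 := hx i
    have h2 := hp1 i
    have h3 := hq2 i
    constructor <;> linarith [h1.1, h1.2]
  choose S p q hS hpq hC using hbox
  have hK : IsCompact (Set.Icc (fun _ => -1 : Fin n → ℝ) (fun _ => 1)) := isCompact_Icc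
  obtain ⟨t, -, ht⟩ := hK.elim_nhds_subcover
    (fun a => {x : Fin n → ℝ | ∀ i, (p a i : ℝ) < x i ∧ x i < q a i}) (by
      intro a _
      have h1 : ∀ᶠ x : Fin n → ℝ in 𝓝 a, ∀ i, (p a i : ℝ) < x i ∧ x i < q a i := by
        rw [Filter.eventually_all]
        intro i
        exact (((continuous_apply i).tendsto a).eventually_const_lt (hpq a i).1).and
          (((continuous_apply i).tendsto a).eventually_lt_const (hpq a i).2)
      exact h1)
  refine SAP.congr (SAP.and (SAP.exists_mem t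
    (p := fun a (x : Fin n → ℝ) => (∀ i, (p a i : ℝ) < x i ∧ x i < q a i) ∧ x ∈ S a) fun a _ =>
      SAP.and (SAP.forall_fin fun i => (SAP.lt (PF.const (p a i)) (PF.coord i)).and
        (SAP.lt (PF.coord i) (PF.const (q a i)))) (hS a))
    (SAP.forall_fin (p := fun i (x : Fin n → ℝ) => ((-1 : ℚ) : ℝ) ≤ x i ∧ x i ≤ ((1 : ℚ) : ℝ))
      fun i => (SAP.le (PF.const (-1)) (PF.coord i)).and
        (SAP.le (PF.coord i) (PF.const 1)))) fun x => ?_
  push_cast
  constructor
  · rintro ⟨h1, h2⟩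
    refine ⟨?_, h2⟩
    have h3 := ht (show x ∈ Set.Icc _ _ from ⟨fun i => (h2 i).1, fun i => (h2 i).2⟩)
    simp only [mem_iUnion] at h3
    obtain ⟨a, ha, hx⟩ := h3
    exact ⟨a, ha, hx, (hC a x hx).1 h1⟩
  · rintro ⟨⟨a, -, hx, hxS⟩, h2⟩
    exact ⟨(hC a x hx).2 hxS, h2⟩

/-- the local form implies the global form -/
theorem global_of_loc
    (h : ∀ (n : ℕ) (F : Finset (MvPolynomial (Fin n) ℚ)) (a : Fin n → ℝ),
      SAat (closure (rl (Zq F))) a) (n : ℕ) (F : Finset (MvPolynomial (Fin n) ℚ)) :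
    SA (closure (rl (Zq F))) := by
  classical
  have hch := fun (I : Finset (Fin n)) (f : MvPolynomial (Fin n) ℚ) => exists_chart I f
  choose N hp hhp using hch
  have hiff : ∀ (I : Finset (Fin n)) (u : Fin n → ℚ), (∀ i ∈ I, u i ≠ 0) →
      (u ∈ Zq (F.image (hp I)) ↔ th I u ∈ Zq F) := by
    intro I u hu
    have hprod : (∏ i ∈ I, u i) ≠ 0 := Finset.prod_ne_zero_iff.2 hu
    constructor
    · intro h1 f hf
      have h2 := h1 _ (Finset.mem_image_of_mem _ hf)
      rw [hhp I f u hu] at h2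
      exact (mul_eq_zero.1 h2).resolve_left (pow_ne_zero _ hprod)
    · intro h1 g hg
      obtain ⟨f, hf, rfl⟩ := Finset.mem_image.1 hg
      rw [hhp I f u hu, h1 f hf, mul_zero]
  have hclos : ∀ (I : Finset (Fin n)) (x : Fin n → ℝ), (∀ i ∈ I, x i ≠ 0) →
      (x ∈ closure (rl (Zq F)) ↔ th I x ∈ closure (rl (Zq (F.image (hp I))))) := by
    intro I x hx
    have hx' : ∀ i ∈ I, th I x i ≠ 0 := by
      intro i hi
      simp only [th, hi, if_true]
      exact inv_ne_zero (hx i hi)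
    constructor
    · refine closure_chart I _ _ (fun u hu huA => ?_) x hx
      rw [hiff I _ (fun i hi => ?_), th_th]
      · exact huA
      · simp only [th, hi, if_true]
        exact inv_ne_zero (hu i hi)
    · intro h1
      have h2 := closure_chart I _ (Zq F) (fun u hu huA => (hiff I u hu).1 huA) _ hx' h1
      rwa [th_th] at h2
  refine SAP.congr (p := fun x : Fin n → ℝ => ∃ I : Finset (Fin n), ∃ u : Fin n → ℝ,
    (u ∈ closure (rl (Zq (F.image (hp I)))) ∧ ∀ i, -1 ≤ u i ∧ u i ≤ 1) ∧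
      ∀ i, (i ∈ I → u i * x i = 1) ∧ (i ∉ I → u i = x i)) ?_ fun x => ?_
  · refine SAP.exists_fin fun I => ?_
    refine SAP.congr (SAP.exists_fun (Fin n) (Fin n) (fun w =>
      ((fun i => w (Sum.inl i)) ∈ closure (rl (Zq (F.image (hp I)))) ∧
        ∀ i, -1 ≤ w (Sum.inl i) ∧ w (Sum.inl i) ≤ 1) ∧
      ∀ i, (i ∈ I → w (Sum.inl i) * w (Sum.inr i) = ((1 : ℚ) : ℝ)) ∧
        (i ∉ I → w (Sum.inl i) = w (Sum.inr i))) ?_) fun v => by simp
    refine SAP.and ?_ (SAP.forall_fin fun i => SAP.and ?_ ?_)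
    · exact SAP.preimage (SA_cube (h n (F.image (hp I)))) (fun i => PF.coord _)
    · exact (SAP.const _).imp (SAP.eq ((PF.coord _).mul (PF.coord _)) (PF.const 1))
    · exact (SAP.const _).imp (SAP.eq (PF.coord _) (PF.coord _))
  · constructor
    · intro hx
      set I : Finset (Fin n) := Finset.univ.filter fun i => 1 < |x i| with hI
      have hmem : ∀ i, i ∈ I ↔ 1 < |x i| := fun i => by simp [hI]
      have hx0 : ∀ i ∈ I, x i ≠ 0 := by
        intro i hi h0
        have := (hmem i).1 hi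
        rw [h0, abs_zero] at this
        linarith
      refine ⟨I, th I x, ⟨(hclos I x hx0).1 hx, fun i => ?_⟩, fun i => ⟨fun hi => ?_,
        fun hi => ?_⟩⟩
      · rw [← abs_le]
        by_cases hi : i ∈ I
        · simp only [th, hi, if_true]
          rw [abs_inv]
          exact inv_le_one_of_one_le₀ ((hmem i).1 hi).le
        · simp only [th, hi, if_false]
          exact not_lt.1 fun h => hi ((hmem i).2 h)
      · simp only [th, hi, if_true]
        exact inv_mul_cancel₀ (hx0 i hi)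
      · simp only [th, hi, if_false]
    · rintro ⟨I, u, ⟨h1, -⟩, h3⟩
      have hx0 : ∀ i ∈ I, x i ≠ 0 := by
        intro i hi h0
        have := (h3 i).1 hi
        rw [h0, mul_zero] at this
        exact zero_ne_one this
      have h4 : th I x = u := by
        funext i
        by_cases hi : i ∈ I
        · simp only [th, hi, if_true]
          exact (eq_inv_of_mul_eq_one_left ((h3 i).1 hi)).symm
        · simp only [th, hi, if_false]
          exact ((h3 i).2 hi).symm
      refine (hclos I x hx0).2 ?_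
      rw [h4]
      exact h1

end Pool.Agent.Q10.MZ
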