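import Pool.Agent.Q10.MZ.Dio

/-!
# Number fields
-/

set_option autoImplicit false

namespace Pool.Agent.Q10.MZ

open Set Filter Topology Pool.Agent.H581R2 Pool.Agent.TH729.SQ

section wr

variable {K : Type} [Field K] [NumberField K] {d : ℕ} (b : Module.Basis (Fin d) ℚ K)

/-- restriction of scalars of a polynomial -/
theorem wr {σ : Type} (f : MvPolynomial σ K) : ∃ g : Fin d → MvPolynomial (σ × Fin d) ℚ,
    ∀ c : σ × Fin d → ℚ, MvPolynomial.eval (fun s => ∑ k, c (s, k) • b k) f =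
      ∑ k, (MvPolynomial.eval c (g k)) • b k := by
  classical
  induction f using MvPolynomial.induction_on with
  | C a =>
    refine ⟨fun k => MvPolynomial.C (b.repr a k), fun c => ?_⟩
    rw [MvPolynomial.eval_C]
    simp only [MvPolynomial.eval_C]
    exact (b.sum_repr a).symm
  | add f f' hf hf' =>
    obtain ⟨g, hg⟩ := hf
    obtain ⟨g', hg'⟩ := hf'
    refine ⟨fun k => g k + g' k, fun c => ?_⟩
    rw [map_add, hg, hg', ← Finset.sum_add_distrib]
    refine Finset.sum_congr rfl fun k _ => ?_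
    rw [map_add, add_smul]
  | mul_X f s hf =>
    obtain ⟨g, hg⟩ := hf
    refine ⟨fun m => ∑ k, ∑ l, MvPolynomial.C (b.repr (b k * b l) m) *
      (g k * MvPolynomial.X (s, l)), fun c => ?_⟩
    rw [map_mul, hg, MvPolynomial.eval_X, Finset.sum_mul_sum]
    have h1 : ∀ m, MvPolynomial.eval c (∑ k, ∑ l, MvPolynomial.C (b.repr (b k * b l) m) *
      (g k * MvPolynomial.X (s, l))) • b m = ∑ k, ∑ l,
        (MvPolynomial.eval c (g k) * c (s, l)) • (b.repr (b k * b l) m • b m) := by
      intro m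
      rw [map_sum, Finset.sum_smul]
      refine Finset.sum_congr rfl fun k _ => ?_
      rw [map_sum, Finset.sum_smul]
      refine Finset.sum_congr rfl fun l _ => ?_
      rw [map_mul (MvPolynomial.eval c), map_mul (MvPolynomial.eval c), MvPolynomial.eval_C,
        MvPolynomial.eval_X, smul_smul]
      congr 1
      ring
    simp only [h1]
    conv_rhs => rw [Finset.sum_comm]
    refine Finset.sum_congr rfl fun k _ => ?_
    conv_rhs => rw [Finset.sum_comm]
    refine Finset.sum_congr rfl fun l _ => ?_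
    rw [← Finset.smul_sum, b.sum_repr, smul_mul_smul_comm]

/-- the Diophantine set over `ℚ` of a Diophantine set over `K` -/
theorem dio_wr {n m : ℕ} (F : Finset (MvPolynomial (Fin n ⊕ Fin m) K)) :
    Dio {c : Fin n × Fin d → ℚ | ∃ y : Fin m → K, ∀ f ∈ F,
      MvPolynomial.eval (Sum.elim (fun i => ∑ k, c (i, k) • b k) y) f = 0} := by
  classical
  have h1 := fun f : MvPolynomial (Fin n ⊕ Fin m) K => wr b f
  choose g hg using h1
  let e := Equiv.sumProdDistrib (Fin n) (Fin m) (Fin d)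
  refine ⟨Fin m × Fin d, inferInstance, (F ×ˢ Finset.univ).image
    (fun p : MvPolynomial (Fin n ⊕ Fin m) K × Fin d => MvPolynomial.rename e (g p.1 p.2)),
    fun c => ?_⟩
  have key : ∀ (y : Fin m × Fin d → ℚ) (f : MvPolynomial (Fin n ⊕ Fin m) K),
      MvPolynomial.eval (Sum.elim (fun i => ∑ k, c (i, k) • b k) (fun i => ∑ k, y (i, k) • b k))
        f = ∑ k, (MvPolynomial.eval (Sum.elim c y) (MvPolynomial.rename e (g f k))) • b k := by
    intro y f
    have h2 := hg f ((Sum.elim c y) ∘ e)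
    have h3 : (fun s : Fin n ⊕ Fin m => ∑ k, ((Sum.elim c y) ∘ e) (s, k) • b k) =
        Sum.elim (fun i => ∑ k, c (i, k) • b k) (fun i => ∑ k, y (i, k) • b k) := by
      funext s
      rcases s with s | s <;> rfl
    rw [h3] at h2
    rw [h2]
    refine Finset.sum_congr rfl fun k _ => ?_
    rw [MvPolynomial.eval_rename]
  have hzero : ∀ (v : Fin d → ℚ), ∑ k, v k • b k = 0 ↔ ∀ k, v k = 0 := by
    intro v
    constructor
    · intro h
      exact Fintype.linearIndependent_iff.1 b.linearIndependent v h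
    · intro h
      exact Finset.sum_eq_zero fun k _ => by rw [h k, zero_smul]
  constructor
  · rintro ⟨y, hy⟩
    refine ⟨fun p => b.repr (y p.1) p.2, fun q hq => ?_⟩
    obtain ⟨⟨f, k⟩, hfk, rfl⟩ := Finset.mem_image.1 hq
    have hf : f ∈ F := (Finset.mem_product.1 hfk).1
    have h2 := key (fun p => b.repr (y p.1) p.2) f
    have h3 : (fun i => ∑ k, b.repr (y i) k • b k) = y := funext fun i => b.sum_repr (y i)
    simp only [h3] at h2
    rw [hy f hf] at h2
    exact (hzero _).1 h2.symm k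
  · rintro ⟨y, hy⟩
    refine ⟨fun i => ∑ k, y (i, k) • b k, fun f hf => ?_⟩
    rw [key y f]
    refine (hzero _).2 fun k => ?_
    exact hy _ (Finset.mem_image.2 ⟨(f, k), Finset.mem_product.2 ⟨hf, Finset.mem_univ k⟩, rfl⟩)

end wr

/-- **number fields** -/
theorem closure_nf
    (hQ : ∀ (n : ℕ) (F : Finset (MvPolynomial (Fin n) ℚ)), SA (closure (rl (Zq F))))
    (K : Type) [Field K] [NumberField K] {J : Type} [Finite J] (l : J → K →ₗ[ℚ] ℝ)
    (hl : ∀ j x, IsAlgebraic ℚ (l j x)) {n m : ℕ} (F : Finset (MvPolynomial (Fin n ⊕ Fin m) K))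
    {A : Set (Fin n × J → ℝ)} (hA : SA A) :
    SA (closure {z : Fin n × J → ℝ | (∃ x : Fin n → K,
      (∃ y : Fin m → K, ∀ f ∈ F, MvPolynomial.eval (Sum.elim x y) f = 0) ∧
        ∀ p, z p = l p.2 (x p.1)) ∧ z ∈ A}) := by
  classical
  have := Fintype.ofFinite J
  let b := Module.finBasis ℚ K
  set d := Module.finrank ℚ K with hd
  set D : Set (Fin n × Fin d → ℚ) := {c : Fin n × Fin d → ℚ | ∃ y : Fin m → K, ∀ f ∈ F,
      MvPolynomial.eval (Sum.elim (fun i => ∑ k, c (i, k) • b k) y) f = 0} with hD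
  have hDio : Dio D := dio_wr b F
  let Λ : (Fin n × Fin d → ℝ) → Fin n × J → ℝ := fun c p => ∑ k, c (p.1, k) * l p.2 (b k)
  have hΛ : Continuous Λ := by
    refine continuous_pi fun p => continuous_finsetSum _ fun k _ => ?_
    exact (continuous_apply _).mul continuous_const
  have halg : ∀ p : J × Fin d, IsAlgebraic ℚ (l p.1 (b p.2)) := fun p => hl _ _
  have hpre : SA (Λ ⁻¹' A) := by
    have h1 : SA {w : (J × Fin d) ⊕ (Fin n × Fin d) → ℝ |
        (fun p : Fin n × J => ∑ k, w (Sum.inr (p.1, k)) * w (Sum.inl (p.2, k))) ∈ A} := by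
      refine SAP.preimage (p := fun v => v ∈ A) hA (fun p => ?_)
      exact PF.sum _ fun k _ => (PF.coord _).mul (PF.coord _)
    exact SA_of_param h1 halg
  have hC := closure_dio_inter hQ hDio hpre
  set C := closure (rl D ∩ Λ ⁻¹' A) with hCdef
  have hset : {z : Fin n × J → ℝ | (∃ x : Fin n → K,
      (∃ y : Fin m → K, ∀ f ∈ F, MvPolynomial.eval (Sum.elim x y) f = 0) ∧
        ∀ p, z p = l p.2 (x p.1)) ∧ z ∈ A} = Λ '' (rl D ∩ Λ ⁻¹' A) := by
    have hval : ∀ (c : Fin n × Fin d → ℚ) (p : Fin n × J), Λ (fun s => (c s : ℝ)) p =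
        l p.2 (∑ k, c (p.1, k) • b k) := by
      intro c p
      simp only [Λ]
      rw [map_sum]
      refine Finset.sum_congr rfl fun k _ => ?_
      rw [map_smul, Rat.smul_def]
    ext z
    constructor
    · rintro ⟨⟨x, hx, hz⟩, hzA⟩
      have h3 : (fun i => ∑ k, b.repr (x i) k • b k) = x := funext fun i => b.sum_repr (x i)
      have h4 : Λ (fun s => ((b.repr (x s.1) s.2 : ℚ) : ℝ)) = z := by
        funext p
        rw [hval (fun s => b.repr (x s.1) s.2), hz p]
        congr 1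
        exact congrFun h3 p.1
      refine ⟨fun s => ((b.repr (x s.1) s.2 : ℚ) : ℝ), ⟨⟨fun s => b.repr (x s.1) s.2, ?_, rfl⟩,
        ?_⟩, h4⟩
      · change ∃ y : Fin m → K, ∀ f ∈ F,
          MvPolynomial.eval (Sum.elim (fun i => ∑ k, b.repr (x i) k • b k) y) f = 0
        rw [h3]
        exact hx
      · rw [mem_preimage, h4]
        exact hzA
    · rintro ⟨_, ⟨⟨c, hc, rfl⟩, hA'⟩, rfl⟩
      exact ⟨⟨fun i => ∑ k, c (i, k) • b k, hc, fun p => hval c p⟩, hA'⟩
  have hcl : closure (Λ '' (rl D ∩ Λ ⁻¹' A)) = closure (Λ '' C) := by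
    apply Subset.antisymm
    · exact closure_mono (image_mono subset_closure)
    · exact closure_minimal (image_closure_subset_closure_image hΛ) isClosed_closure
  rw [hset, hcl]
  refine SA.closure ?_
  have h1 : SA {w : (J × Fin d) ⊕ ((Fin n × Fin d) ⊕ (Fin n × J)) → ℝ |
      ∀ p : Fin n × J, w (Sum.inr (Sum.inr p)) =
        ∑ k, w (Sum.inr (Sum.inl (p.1, k))) * w (Sum.inl (p.2, k))} := by
    refine SAP.forall_fin fun p => SAP.eq (PF.coord _) ?_
    exact PF.sum _ fun k _ => (PF.coord _).mul (PF.coord _)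
  have h2 := SA_of_param h1 halg
  refine SAP.congr (SAP.exists_fun (Fin n × Fin d) (Fin n × J) (fun w =>
    (fun i => w (Sum.inl i)) ∈ C ∧ w ∈ {v : (Fin n × Fin d) ⊕ (Fin n × J) → ℝ |
      Sum.elim (fun p : J × Fin d => l p.1 (b p.2)) v ∈
      {w : (J × Fin d) ⊕ ((Fin n × Fin d) ⊕ (Fin n × J)) → ℝ |
      ∀ p : Fin n × J, w (Sum.inr (Sum.inr p)) =
        ∑ k, w (Sum.inr (Sum.inl (p.1, k))) * w (Sum.inl (p.2, k))}}) ?_) fun v => ?_
  · exact (SAP.preimage (p := fun v => v ∈ C) hC (fun i => PF.coord _)).and h2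
  · constructor
    · rintro ⟨c, hc, rfl⟩
      exact ⟨c, hc, fun p => rfl⟩
    · rintro ⟨c, hc, h⟩
      exact ⟨c, hc, (funext h).symm⟩

end Pool.Agent.Q10.MZ
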